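import Mathlib

set_option autoImplicit false
set_option linter.unusedSectionVars false
set_option linter.style.whitespace false

namespace Pool.Agent.H439R2.MC

def tab : List ℕ := [0, 1, 2, 2, 3, 4, 4, 5, 6, 6, 6, 7, 8, 8, 9, 9, 10, 11, 11, 12, 12, 12, 13, 14, 14, 15, 16, 16, 16, 17, 18, 18, 19, 20, 20, 20, 20, 21, 22, 22, 23, 24, 24, 25, 25, 25, 26, 27, 27, 28, 29, 29, 30, 30, 30, 30]

theorem tab_le (f : ℕ → ℕ) (h0 : f 0 = 0)
    (P : ∀ m n k, 2 * m ≤ n * (n - 1) + 2 * k → f m ≤ n ^ 2 / 4 + f k) :
    ∀ k < 56, f k ≤ tab.getD k 0 := by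
  have h1 : f 1 ≤ 1 := by
    have := P 1 2 0 (by norm_num); norm_num at this; omega
  have h2 : f 2 ≤ 2 := by
    have := P 2 2 1 (by norm_num); norm_num at this; omega
  have h3 : f 3 ≤ 2 := by
    have := P 3 3 0 (by norm_num); norm_num at this; omega
  have h4 : f 4 ≤ 3 := by
    have := P 4 3 1 (by norm_num); norm_num at this; omega
  have h5 : f 5 ≤ 4 := by
    have := P 5 3 2 (by norm_num); norm_num at this; omega
  have h6 : f 6 ≤ 4 := by
    have := P 6 4 0 (by norm_num); norm_num at this; omega
  have h7 : f 7 ≤ 5 := by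
    have := P 7 4 1 (by norm_num); norm_num at this; omega
  have h8 : f 8 ≤ 6 := by
    have := P 8 4 2 (by norm_num); norm_num at this; omega
  have h9 : f 9 ≤ 6 := by
    have := P 9 4 3 (by norm_num); norm_num at this; omega
  have h10 : f 10 ≤ 6 := by
    have := P 10 5 0 (by norm_num); norm_num at this; omega
  have h11 : f 11 ≤ 7 := by
    have := P 11 5 1 (by norm_num); norm_num at this; omega
  have h12 : f 12 ≤ 8 := by
    have := P 12 5 2 (by norm_num); norm_num at this; omega
  have h13 : f 13 ≤ 8 := by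
    have := P 13 5 3 (by norm_num); norm_num at this; omega
  have h14 : f 14 ≤ 9 := by
    have := P 14 5 4 (by norm_num); norm_num at this; omega
  have h15 : f 15 ≤ 9 := by
    have := P 15 6 0 (by norm_num); norm_num at this; omega
  have h16 : f 16 ≤ 10 := by
    have := P 16 6 1 (by norm_num); norm_num at this; omega
  have h17 : f 17 ≤ 11 := by
    have := P 17 6 2 (by norm_num); norm_num at this; omega
  have h18 : f 18 ≤ 11 := by
    have := P 18 6 3 (by norm_num); norm_num at this; omega
  have h19 : f 19 ≤ 12 := by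
    have := P 19 6 4 (by norm_num); norm_num at this; omega
  have h20 : f 20 ≤ 12 := by
    have := P 20 7 0 (by norm_num); norm_num at this; omega
  have h21 : f 21 ≤ 12 := by
    have := P 21 7 0 (by norm_num); norm_num at this; omega
  have h22 : f 22 ≤ 13 := by
    have := P 22 7 1 (by norm_num); norm_num at this; omega
  have h23 : f 23 ≤ 14 := by
    have := P 23 7 2 (by norm_num); norm_num at this; omega
  have h24 : f 24 ≤ 14 := by
    have := P 24 7 3 (by norm_num); norm_num at this; omega
  have h25 : f 25 ≤ 15 := by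
    have := P 25 7 4 (by norm_num); norm_num at this; omega
  have h26 : f 26 ≤ 16 := by
    have := P 26 7 5 (by norm_num); norm_num at this; omega
  have h27 : f 27 ≤ 16 := by
    have := P 27 7 6 (by norm_num); norm_num at this; omega
  have h28 : f 28 ≤ 16 := by
    have := P 28 8 0 (by norm_num); norm_num at this; omega
  have h29 : f 29 ≤ 17 := by
    have := P 29 8 1 (by norm_num); norm_num at this; omega
  have h30 : f 30 ≤ 18 := by
    have := P 30 8 2 (by norm_num); norm_num at this; omega
  have h31 : f 31 ≤ 18 := by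
    have := P 31 8 3 (by norm_num); norm_num at this; omega
  have h32 : f 32 ≤ 19 := by
    have := P 32 8 4 (by norm_num); norm_num at this; omega
  have h33 : f 33 ≤ 20 := by
    have := P 33 8 5 (by norm_num); norm_num at this; omega
  have h34 : f 34 ≤ 20 := by
    have := P 34 8 6 (by norm_num); norm_num at this; omega
  have h35 : f 35 ≤ 20 := by
    have := P 35 9 0 (by norm_num); norm_num at this; omega
  have h36 : f 36 ≤ 20 := by
    have := P 36 9 0 (by norm_num); norm_num at this; omega
  have h37 : f 37 ≤ 21 := by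
    have := P 37 9 1 (by norm_num); norm_num at this; omega
  have h38 : f 38 ≤ 22 := by
    have := P 38 9 2 (by norm_num); norm_num at this; omega
  have h39 : f 39 ≤ 22 := by
    have := P 39 9 3 (by norm_num); norm_num at this; omega
  have h40 : f 40 ≤ 23 := by
    have := P 40 9 4 (by norm_num); norm_num at this; omega
  have h41 : f 41 ≤ 24 := by
    have := P 41 9 5 (by norm_num); norm_num at this; omega
  have h42 : f 42 ≤ 24 := by
    have := P 42 9 6 (by norm_num); norm_num at this; omega
  have h43 : f 43 ≤ 25 := by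
    have := P 43 9 7 (by norm_num); norm_num at this; omega
  have h44 : f 44 ≤ 25 := by
    have := P 44 10 0 (by norm_num); norm_num at this; omega
  have h45 : f 45 ≤ 25 := by
    have := P 45 10 0 (by norm_num); norm_num at this; omega
  have h46 : f 46 ≤ 26 := by
    have := P 46 10 1 (by norm_num); norm_num at this; omega
  have h47 : f 47 ≤ 27 := by
    have := P 47 10 2 (by norm_num); norm_num at this; omega
  have h48 : f 48 ≤ 27 := by
    have := P 48 10 3 (by norm_num); norm_num at this; omega
  have h49 : f 49 ≤ 28 := by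
    have := P 49 10 4 (by norm_num); norm_num at this; omega
  have h50 : f 50 ≤ 29 := by
    have := P 50 10 5 (by norm_num); norm_num at this; omega
  have h51 : f 51 ≤ 29 := by
    have := P 51 10 6 (by norm_num); norm_num at this; omega
  have h52 : f 52 ≤ 30 := by
    have := P 52 10 7 (by norm_num); norm_num at this; omega
  have h53 : f 53 ≤ 30 := by
    have := P 53 11 0 (by norm_num); norm_num at this; omega
  have h54 : f 54 ≤ 30 := by
    have := P 54 11 0 (by norm_num); norm_num at this; omega
  have h55 : f 55 ≤ 30 := by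
    have := P 55 11 0 (by norm_num); norm_num at this; omega
  intro k hk
  interval_cases k
  · rw [h0]; exact Nat.zero_le _
  · exact h1
  · exact h2
  · exact h3
  · exact h4
  · exact h5
  · exact h6
  · exact h7
  · exact h8
  · exact h9
  · exact h10
  · exact h11
  · exact h12
  · exact h13
  · exact h14
  · exact h15
  · exact h16
  · exact h17
  · exact h18
  · exact h19
  · exact h20
  · exact h21
  · exact h22
  · exact h23
  · exact h24
  · exact h25
  · exact h26
  · exact h27
  · exact h28
  · exact h29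
  · exact h30
  · exact h31
  · exact h32
  · exact h33
  · exact h34
  · exact h35
  · exact h36
  · exact h37
  · exact h38
  · exact h39
  · exact h40
  · exact h41
  · exact h42
  · exact h43
  · exact h44
  · exact h45
  · exact h46
  · exact h47
  · exact h48
  · exact h49
  · exact h50
  · exact h51
  · exact h52
  · exact h53
  · exact h54
  · exact h55

def gU (n k : ℕ) : ℕ := min (n ^ 2 / 4 + tab.getD k 0) ((n + 1) ^ 2 / 4)

def oddF (u : ℕ) : ℕ :=
  if max ((4 * u - 10) / 3) (u - 1) % 2 = 1 then max ((4 * u - 10) / 3) (u - 1)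
  else max ((4 * u - 10) / 3) (u - 1) - 1

theorem chk : ∀ n < 56, ∀ k < n, n * (n - 1) / 2 + k = 99 ∨ n * (n - 1) / 2 + k = 0 ∨
    (2 * gU n k ≤ n * (n - 1) / 2 + k + 2) ∨
    (2 * gU n k - (n * (n - 1) / 2 + k) - 2) * oddF (2 * gU n k - (n * (n - 1) / 2 + k))
      < n * (n - 1) / 2 + k := by
  decide +kernel

theorem chk2 : ∀ n < 17, ∀ k < n, 32 * gU n k ≤ 17 * (n * (n - 1) / 2 + k) + 86 := by
  decide +kernel

theorem oddF_le (u N : ℕ) (hu : 3 ≤ u) (hN : N % 2 = 1) (h : 3 * N + 9 < 4 * u ∨ N < u) :
    N ≤ oddF u := by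
  unfold oddF
  split_ifs with h1
  · omega
  · omega

theorem tri (m : ℕ) : ∃ n k, k < n ∧ m = n * (n - 1) / 2 + k := by
  induction m with
  | zero => exact ⟨1, 0, by norm_num, by norm_num⟩
  | succ m ih =>
    obtain ⟨n, k, hk, hm⟩ := ih
    by_cases h : k + 1 < n
    · exact ⟨n, k + 1, h, by omega⟩
    · refine ⟨n + 1, 0, by omega, ?_⟩
      have hk' : k + 1 = n := by omega
      subst hk'
      have e1 : (k + 1 + 1) * (k + 1 + 1 - 1) = (k + 1) * (k + 1 - 1) + 2 * (k + 1) := by
        simp; ring
      rw [e1, Nat.add_mul_div_left _ _ (by norm_num : 0 < 2)]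
      omega

theorem even_tri (n : ℕ) : 2 * (n * (n - 1) / 2) = n * (n - 1) := by
  have : 2 ∣ n * (n - 1) := even_iff_two_dvd.1 (Nat.even_mul_pred_self n)
  omega

theorem f_le_gU (f : ℕ → ℕ) (h0 : f 0 = 0)
    (P : ∀ m n k, 2 * m ≤ n * (n - 1) + 2 * k → f m ≤ n ^ 2 / 4 + f k)
    (n k : ℕ) (hk : k < n) (hn : k < 56) : f (n * (n - 1) / 2 + k) ≤ gU n k := by
  have h1 := P (n * (n - 1) / 2 + k) n k (by have := even_tri n; omega)
  have h2 := tab_le f h0 P k hn
  have h3 := P (n * (n - 1) / 2 + k) (n + 1) 0 (by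
    have := even_tri n
    have e1 : (n + 1) * (n + 1 - 1) = n * (n - 1) + 2 * n := by
      rcases n with _ | n
      · simp
      · simp; ring
    rw [e1]; omega)
  rw [h0] at h3
  unfold gU
  exact le_min (by omega) (by simpa using h3)

theorem lin_bound (f : ℕ → ℕ) (h0 : f 0 = 0)
    (P : ∀ m n k, 2 * m ≤ n * (n - 1) + 2 * k → f m ≤ n ^ 2 / 4 + f k) :
    ∀ m, 32 * f m ≤ 17 * m + 86 := by
  intro m
  induction m using Nat.strong_induction_on with
  | _ m ih =>
    obtain ⟨n, k, hk, hm⟩ := tri m
    by_cases hn : n < 17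
    · have h1 := f_le_gU f h0 P n k hk (by omega)
      have h2 := chk2 n hn k hk
      rw [← hm] at h1
      omega
    · push Not at hn
      have h1 := P m n k (by have := even_tri n; omega)
      have hkm : k < m := by
        have := even_tri n
        have h3 : 16 ≤ n - 1 := by omega
        have : n * 16 ≤ n * (n - 1) := Nat.mul_le_mul_left n h3
        omega
      have h2 := ih k hkm
      have h3 : 32 * (n ^ 2 / 4) ≤ 8 * n ^ 2 := by
        have := Nat.div_mul_le_self (n ^ 2) 4
        omega
      have h4 : 8 * n ^ 2 ≤ 17 * (n * (n - 1) / 2) := by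
        have h5 := even_tri n
        have h6 : 2 * (8 * n ^ 2) ≤ 17 * (n * (n - 1)) := by
          obtain ⟨t, rfl⟩ : ∃ t, n = t + 17 := ⟨n - 17, by omega⟩
          have : t + 17 - 1 = t + 16 := by omega
          rw [this]
          nlinarith
        omega
      omega

theorem arith (f : ℕ → ℕ) (h0 : f 0 = 0)
    (P : ∀ m n k, 2 * m ≤ n * (n - 1) + 2 * k → f m ≤ n ^ 2 / 4 + f k)
    (m N : ℕ) (hm1 : 1 ≤ m) (hN : N % 2 = 1)
    (hT : (m : ℤ) ≤ (2 * f m - m - 2) * N) :
    4 * (2 * (f m : ℤ) - m) ≤ 3 * N + 9 ∧ 2 * (f m : ℤ) - m ≤ N := by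
  have hu3 : (3:ℤ) ≤ 2 * f m - m := by
    by_contra hcon
    push Not at hcon
    have : (2 * (f m : ℤ) - m - 2) * N ≤ 0 :=
      mul_nonpos_of_nonpos_of_nonneg (by linarith) (Int.natCast_nonneg _)
    have : (1:ℤ) ≤ m := by exact_mod_cast hm1
    linarith
  obtain ⟨n, k, hk, hm⟩ := tri m
  by_cases hn : n < 56
  · -- finite check
    have key : ∀ g : ℕ, f m ≤ g → m + 3 ≤ 2 * g → (2 * g - m - 2) * oddF (2 * g - m) < m →
        4 * (2 * (f m : ℤ) - m) ≤ 3 * N + 9 ∧ 2 * (f m : ℤ) - m ≤ N := by
      intro g hfg hg3 hlt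
      by_contra hcon
      have h1 : 3 * N + 9 < 4 * (2 * g - m) ∨ N < 2 * g - m := by omega
      have h2 := oddF_le (2 * g - m) N (by omega) hN h1
      have h3 : m ≤ (2 * g - m - 2) * N := by
        have h4 : (2 * (f m : ℤ) - m - 2) * N ≤ ((2 * g - m - 2 : ℕ) : ℤ) * N := by
          apply mul_le_mul_of_nonneg_right _ (Int.natCast_nonneg _)
          omega
        have h5 : (m : ℤ) ≤ ((2 * g - m - 2 : ℕ) : ℤ) * N := hT.trans h4
        exact_mod_cast h5
      have h4 : (2 * g - m - 2) * N ≤ (2 * g - m - 2) * oddF (2 * g - m) :=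
        Nat.mul_le_mul_left _ h2
      omega
    by_cases h99 : m = 99
    · have h1 := P 99 13 21 (by norm_num)
      have h2 := tab_le f h0 P 21 (by norm_num)
      have h3 : tab.getD 21 0 = 12 := by decide
      rw [h3] at h2
      norm_num at h1
      apply key 54 (by rw [h99]; omega) (by omega)
      rw [h99]; decide
    · have h1 := f_le_gU f h0 P n k hk (by omega)
      rw [← hm] at h1
      have h2 := chk n hn k hk
      rw [← hm] at h2
      rcases h2 with h2 | h2 | h2 | h2
      · exact absurd h2 h99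
      · omega
      · omega
      · exact key (gU n k) h1 (by omega) h2
  · push Not at hn
    have h1 := P m n k (by have := even_tri n; omega)
    have h2 := lin_bound f h0 P k
    have h5 := even_tri n
    have hnn : (n : ℤ) * (n - 1) = 2 * (m - k) := by
      have h6 : ((n - 1 : ℕ) : ℤ) = n - 1 := by omega
      have h7 : (m : ℤ) - k = ((n * (n - 1) / 2 : ℕ) : ℤ) := by omega
      rw [h7]
      have : ((2 * (n * (n - 1) / 2) : ℕ) : ℤ) = ((n * (n - 1) : ℕ) : ℤ) := by exact_mod_cast h5
      rw [Nat.cast_mul (n) (n - 1), h6] at this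
      rw [← this]; push_cast; ring
    have h3 : 4 * (f m : ℤ) ≤ n ^ 2 + 4 * f k := by
      have := Nat.div_mul_le_self (n ^ 2) 4
      have h7 : 4 * f m ≤ n ^ 2 + 4 * f k := by omega
      exact_mod_cast h7
    have h2' : 32 * (f k : ℤ) ≤ 17 * k + 86 := by exact_mod_cast h2
    have hn' : (56:ℤ) ≤ n := by exact_mod_cast hn
    have hk' : (k:ℤ) ≤ n - 1 := by omega
    have hk0 : (0:ℤ) ≤ k := Int.natCast_nonneg _
    set u : ℤ := 2 * f m - m with hu
    -- 16 u ≤ 8 n + k + 86
    have hU : 16 * u ≤ 8 * n + k + 86 := by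
      nlinarith
    have hbig : (u - 2) * (4 * u - 10) < 3 * m := by
      have e1 : 16 * (u - 2) ≤ 8 * n + k + 54 := by linarith
      have e2 : 16 * (4 * u - 10) ≤ 4 * (8 * n + k + 46) := by linarith
      have e3 : (16 * (u - 2)) * (16 * (4 * u - 10)) ≤ (8 * n + k + 54) * (4 * (8 * n + k + 46)) :=
        mul_le_mul e1 e2 (by linarith) (by linarith)
      have e4 : ((8 * n + k + 54) * (4 * (8 * n + k + 46)) : ℤ) < 256 * (3 * m) := by
        have d1 : 256 * (3 * (m:ℤ)) - (8 * n + k + 54) * (4 * (8 * n + k + 46))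
            = 60 * n ^ 2 - 3144 * n - 10308 + (n - 1 - k) * (68 * n + 4 * k - 372) := by
          linear_combination (-384) * hnn
        have d2 : (0:ℤ) ≤ (n - 1 - k) * (68 * n + 4 * k - 372) :=
          mul_nonneg (by linarith) (by linarith)
        have d3 : (0:ℤ) < 60 * n ^ 2 - 3144 * n - 10308 := by nlinarith
        linarith
      nlinarith
    have hN0 : (0:ℤ) ≤ N := Int.natCast_nonneg _
    have hm0 : (1540:ℤ) ≤ m := by nlinarith
    constructor
    · by_contra hcon
      push Not at hcon
      have e1 : 3 * (N:ℤ) ≤ 4 * u - 10 := by omega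
      have e2 : (u - 2) * (3 * N) ≤ (u - 2) * (4 * u - 10) :=
        mul_le_mul_of_nonneg_left e1 (by linarith)
      linarith
    · by_contra hcon
      push Not at hcon
      have e1 : (N:ℤ) ≤ u - 1 := by omega
      have e2 : (u - 2) * N ≤ (u - 2) * (u - 1) := mul_le_mul_of_nonneg_left e1 (by linarith)
      rcases le_or_gt 9 u with h9 | h9
      · have e3 : (u - 2) * (3 * (u - 1)) ≤ (u - 2) * (4 * u - 10) :=
          mul_le_mul_of_nonneg_left (by linarith) (by linarith)
        linarith
      · have e3 : (u - 2) * (u - 1) ≤ 6 * 7 :=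
          mul_le_mul (by linarith) (by linarith) (by linarith) (by norm_num)
        linarith

end Pool.Agent.H439R2.MC
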