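import Mathlib

set_option autoImplicit false
set_option linter.unusedSectionVars false

namespace Pool.Agent.H439R2.MC
open Finset

/-- energy of a sign vector -/
def En {V : Type} [Fintype V] (w : V → V → ℤ) (x : V → ℤ) : ℤ := ∑ u, ∑ v, w u v * (x u * x v)
/-- total (ordered) weight -/
def tot {V : Type} [Fintype V] (w : V → V → ℤ) : ℤ := ∑ u, ∑ v, w u v
/-- sign vectors -/
def Sg {V : Type} (x : V → ℤ) : Prop := ∀ v, x v = 1 ∨ x v = -1
/-- symmetric, zero diagonal -/
def Wt {V : Type} (w : V → V → ℤ) : Prop := (∀ u v, w u v = w v u) ∧ ∀ u, w u u = 0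
/-- there is a cut of value at least `c` -/
def HC {V : Type} [Fintype V] (w : V → V → ℤ) (c : ℤ) : Prop :=
  ∃ x, Sg x ∧ En w x ≤ tot w - 4 * c

variable {V : Type} [Fintype V]

theorem Sg.sq {x : V → ℤ} (h : Sg x) (v : V) : x v * x v = 1 := by
  rcases h v with h | h <;> rw [h] <;> norm_num

theorem Sg.neg {x : V → ℤ} (h : Sg x) : Sg (fun v => - x v) := by
  intro v; rcases h v with h | h <;> simp [h]

theorem En_neg (w : V → V → ℤ) (x : V → ℤ) : En w (fun v => - x v) = En w x := by
  unfold En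
  refine Finset.sum_congr rfl fun u _ => Finset.sum_congr rfl fun v _ => by ring

theorem even_tot [DecidableEq V] (w : V → V → ℤ) (hw : Wt w) : (2 : ℤ) ∣ tot w := by
  have h : ((tot w : ℤ) : ZMod 2) = 0 := by
    unfold tot
    push_cast
    rw [← Finset.sum_product']
    refine Finset.sum_involution (fun p _ => (p.2, p.1)) ?_ ?_ ?_ ?_
    · rintro ⟨a, b⟩ _
      simp only
      rw [hw.1 b a]
      have : (2 : ZMod 2) = 0 := by decide
      calc ((w a b : ℤ) : ZMod 2) + ((w a b : ℤ) : ZMod 2) = 2 * ((w a b : ℤ) : ZMod 2) := by ring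
        _ = 0 := by rw [this, zero_mul]
    · rintro ⟨a, b⟩ _ h1 h2
      simp only [Prod.mk.injEq] at h2
      apply h1
      simp only
      rw [h2.1, hw.2]
      simp
    · intro a _; exact Finset.mem_univ _
    · intro a _; rfl
  exact (ZMod.intCast_zmod_eq_zero_iff_dvd _ 2).1 h

theorem dvd4 [DecidableEq V] (w : V → V → ℤ) (hw : Wt w) (x : V → ℤ) (hx : Sg x) :
    (4 : ℤ) ∣ tot w - En w x := by
  let y : V → V → ℤ := fun u v => if x u = x v then 0 else w u v
  have hy : Wt y := by
    constructor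
    · intro u v
      by_cases h : x u = x v
      · simp [y, h]
      · simp [y, h, Ne.symm h, hw.1 u v]
    · intro u; simp [y]
  have h1 : tot w - En w x = 2 * tot y := by
    unfold tot En
    rw [← Finset.sum_sub_distrib, Finset.mul_sum]
    refine Finset.sum_congr rfl fun u _ => ?_
    rw [← Finset.sum_sub_distrib, Finset.mul_sum]
    refine Finset.sum_congr rfl fun v _ => ?_
    simp only [y]
    rcases hx u with h | h <;> rcases hx v with h' | h' <;> simp [h, h'] <;> ring
  rw [h1]
  obtain ⟨t, ht⟩ := even_tot y hy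
  exact ⟨t, by rw [ht]; ring⟩

/-- row sum -/
def row (w : V → V → ℤ) (x : V → ℤ) (v : V) : ℤ := ∑ u, w v u * x u

theorem En_eq_row (w : V → V → ℤ) (x : V → ℤ) : En w x = ∑ v, x v * row w x v := by
  unfold En row
  refine Finset.sum_congr rfl fun u _ => ?_
  rw [Finset.mul_sum]
  exact Finset.sum_congr rfl fun v _ => by ring

/-- bilinear form -/
def Bl (w : V → V → ℤ) (x y : V → ℤ) : ℤ := ∑ u, ∑ v, w u v * (x u * y v)

theorem Bl_self (w : V → V → ℤ) (x : V → ℤ) : Bl w x x = En w x := rfl

theorem Bl_comm (w : V → V → ℤ) (hw : Wt w) (x y : V → ℤ) : Bl w x y = Bl w y x := by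
  unfold Bl
  rw [Finset.sum_comm]
  refine Finset.sum_congr rfl fun u _ => Finset.sum_congr rfl fun v _ => ?_
  rw [hw.1 v u]; ring

theorem En_add (w : V → V → ℤ) (hw : Wt w) (x y : V → ℤ) :
    En w (fun v => x v + y v) = En w x + En w y + 2 * Bl w x y := by
  have h : En w (fun v => x v + y v) = Bl w x x + Bl w y y + Bl w x y + Bl w y x := by
    unfold En Bl
    simp only [← Finset.sum_add_distrib]
    refine Finset.sum_congr rfl fun u _ => Finset.sum_congr rfl fun v _ => by ring
  rw [h, Bl_comm w hw y x, Bl_self, Bl_self]; ring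

theorem En_smul (w : V → V → ℤ) (c : ℤ) (x : V → ℤ) :
    En w (fun v => c * x v) = c ^ 2 * En w x := by
  unfold En
  rw [Finset.mul_sum]
  refine Finset.sum_congr rfl fun u _ => ?_
  rw [Finset.mul_sum]
  exact Finset.sum_congr rfl fun v _ => by ring

theorem Bl_smul (w : V → V → ℤ) (c : ℤ) (x y : V → ℤ) :
    Bl w x (fun v => c * y v) = c * Bl w x y := by
  unfold Bl
  rw [Finset.mul_sum]
  refine Finset.sum_congr rfl fun u _ => ?_
  rw [Finset.mul_sum]
  exact Finset.sum_congr rfl fun v _ => by ring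

theorem Bl_single [DecidableEq V] (w : V → V → ℤ) (hw : Wt w) (x : V → ℤ) (v : V) :
    Bl w x (fun z => if z = v then 1 else 0) = row w x v := by
  unfold Bl row
  refine Finset.sum_congr rfl fun u _ => ?_
  rw [Finset.sum_eq_single v]
  · simp [hw.1 u v]
  · intro b _ hb; simp [hb]
  · intro h; exact absurd (Finset.mem_univ _) h

theorem En_single [DecidableEq V] (w : V → V → ℤ) (hw : Wt w) (v : V) :
    En w (fun z => if z = v then 1 else 0) = 0 := by
  unfold En
  refine Finset.sum_eq_zero fun u _ => Finset.sum_eq_zero fun z _ => ?_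
  by_cases h1 : u = v
  · by_cases h2 : z = v
    · subst h1; subst h2; simp [hw.2]
    · simp [h2]
  · simp [h1]

/-- flipping one vertex -/
theorem En_flip [DecidableEq V] (w : V → V → ℤ) (hw : Wt w) (x : V → ℤ) (v : V) :
    En w (fun z => if z = v then - x z else x z) = En w x - 4 * (x v * row w x v) := by
  have h : (fun z => if z = v then - x z else x z) =
      (fun z => x z + (-2 * x v) * (if z = v then 1 else 0)) := by
    funext z
    by_cases hz : z = v
    · subst hz; simp; ring
    · simp [hz]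
  rw [h, En_add w hw x (fun z => (-2 * x v) * (if z = v then 1 else 0)), En_smul, En_single w hw,
    Bl_smul, Bl_single w hw]
  ring

theorem Sg.flip [DecidableEq V] {x : V → ℤ} (h : Sg x) (v : V) :
    Sg (fun z => if z = v then - x z else x z) := by
  intro z
  rcases h z with h | h <;> by_cases hz : z = v <;> simp [h, hz] <;> aesop

/-- minimal sign vectors exist -/
theorem exists_min_sg (P : (V → ℤ) → Prop) (f : (V → ℤ) → ℤ) (hP : ∃ x, Sg x ∧ P x) :
    ∃ x, Sg x ∧ P x ∧ ∀ y, Sg y → P y → f x ≤ f y := by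
  classical
  have hfin : Set.Finite {x : V → ℤ | Sg x ∧ P x} := by
    apply Set.Finite.subset (Set.Finite.pi (fun _ : V => (Set.toFinite ({1, -1} : Set ℤ))))
    intro x hx
    simp only [Set.mem_pi, Set.mem_univ, forall_true_left, Set.mem_insert_iff, Set.mem_singleton_iff]
    exact hx.1
  obtain ⟨x, hx, hmin⟩ := Set.exists_min_image _ f hfin hP
  exact ⟨x, hx.1, hx.2, fun y h1 h2 => hmin y ⟨h1, h2⟩⟩

/-- transport along an equivalence -/
theorem tot_equiv {U : Type} [Fintype U] (e : U ≃ V) (w : V → V → ℤ) :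
    tot (fun a b => w (e a) (e b)) = tot w := by
  unfold tot
  rw [← Equiv.sum_comp e (fun u => ∑ v, w u v)]
  refine Finset.sum_congr rfl fun u _ => ?_
  rw [← Equiv.sum_comp e (fun v => w (e u) v)]

theorem En_equiv {U : Type} [Fintype U] (e : U ≃ V) (w : V → V → ℤ) (x : V → ℤ) :
    En (fun a b => w (e a) (e b)) (fun a => x (e a)) = En w x := by
  unfold En
  rw [← Equiv.sum_comp e (fun u => ∑ v, w u v * (x u * x v))]
  refine Finset.sum_congr rfl fun u _ => ?_
  rw [← Equiv.sum_comp e (fun v => w (e u) v * (x (e u) * x v))]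

theorem HC_equiv {U : Type} [Fintype U] (e : U ≃ V) (w : V → V → ℤ) (c : ℤ)
    (h : HC (fun a b => w (e a) (e b)) c) : HC w c := by
  obtain ⟨x, hx, hE⟩ := h
  refine ⟨fun v => x (e.symm v), fun v => hx _, ?_⟩
  rw [← En_equiv e w, ← tot_equiv e w]
  simpa using hE

theorem Wt_equiv {U : Type} (e : U → V) (w : V → V → ℤ) (hw : Wt w) :
    Wt (fun a b => w (e a) (e b)) := ⟨fun _ _ => hw.1 _ _, fun _ => hw.2 _⟩

/-- weaker bounds -/
theorem HC.mono {w : V → V → ℤ} {c d : ℤ} (h : HC w c) (hd : d ≤ c) : HC w d := by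
  obtain ⟨x, hx, h⟩ := h
  exact ⟨x, hx, by linarith⟩

theorem HC_zero (w : V → V → ℤ) : HC w 0 := by
  refine ⟨fun _ => 1, fun _ => Or.inl rfl, ?_⟩
  unfold En tot; simp

/-- rounding up using divisibility by 4 -/
theorem HC_round [DecidableEq V] {w : V → V → ℤ} (hw : Wt w) {c : ℤ} {x : V → ℤ} (hx : Sg x)
    (h : En w x ≤ tot w - 4 * c + 3) : HC w c := by
  refine ⟨x, hx, ?_⟩
  obtain ⟨t, ht⟩ := dvd4 w hw x hx
  omega

end Pool.Agent.H439R2.MC
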