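import Pool.Agent.H439R2.MC.Basic

set_option autoImplicit false
set_option linter.unusedSectionVars false

namespace Pool.Agent.H439R2.MC
open Finset

theorem Bl_comm' {V : Type} [Fintype V] (w : V → V → ℤ) (hw : ∀ u v, w u v = w v u)
    (x y : V → ℤ) : Bl w x y = Bl w y x := by
  unfold Bl
  rw [Finset.sum_comm]
  refine Finset.sum_congr rfl fun u _ => Finset.sum_congr rfl fun v _ => ?_
  rw [hw v u]; ring

theorem En_add' {V : Type} [Fintype V] (w : V → V → ℤ) (hw : ∀ u v, w u v = w v u)
    (x y : V → ℤ) :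
    En w (fun v => x v + y v) = En w x + En w y + 2 * Bl w x y := by
  have h : En w (fun v => x v + y v) = Bl w x x + Bl w y y + Bl w x y + Bl w y x := by
    unfold En Bl
    simp only [← Finset.sum_add_distrib]
    refine Finset.sum_congr rfl fun u _ => Finset.sum_congr rfl fun v _ => by ring
  rw [h, Bl_comm' w hw y x, Bl_self, Bl_self]; ring

/-- the block lemma: a sign combination of block vectors has energy at most the sum of the
energies of the blocks -/
theorem block {V J : Type} [Fintype V] [DecidableEq J] (w : V → V → ℤ)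
    (hw : ∀ u v, w u v = w v u) (β : J → V → ℤ) (s : Finset J) :
    ∃ ε : J → ℤ, (∀ j, ε j = 1 ∨ ε j = -1) ∧
      En w (fun v => ∑ j ∈ s, ε j * β j v) ≤ ∑ j ∈ s, En w (β j) := by
  induction s using Finset.induction_on with
  | empty =>
    refine ⟨fun _ => 1, fun _ => Or.inl rfl, ?_⟩
    simp [En]
  | insert a s ha ih =>
    obtain ⟨ε, hε, hE⟩ := ih
    obtain ⟨c, hc, hcB⟩ : ∃ c : ℤ, (c = 1 ∨ c = -1) ∧
        c * Bl w (fun v => ∑ j ∈ s, ε j * β j v) (β a) ≤ 0 := by
      rcases le_total 0 (Bl w (fun v => ∑ j ∈ s, ε j * β j v) (β a)) with h | h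
      · exact ⟨-1, Or.inr rfl, by linarith⟩
      · exact ⟨1, Or.inl rfl, by linarith⟩
    refine ⟨Function.update ε a c, ?_, ?_⟩
    · intro j
      by_cases hj : j = a
      · subst hj; simpa using hc
      · simpa [hj] using hε j
    · have h1 : (fun v => ∑ j ∈ insert a s, Function.update ε a c j * β j v)
          = (fun v => (∑ j ∈ s, ε j * β j v) + c * β a v) := by
        funext v
        rw [Finset.sum_insert ha, add_comm]
        congr 1
        · refine Finset.sum_congr rfl fun j hj => ?_
          have : j ≠ a := by rintro rfl; exact ha hj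
          simp [this]
        · simp
      rw [h1, En_add' w hw (fun v => ∑ j ∈ s, ε j * β j v) (fun v => c * β a v), En_smul,
        Bl_smul, Finset.sum_insert ha]
      have hc2 : c ^ 2 = 1 := by rcases hc with rfl | rfl <;> norm_num
      rw [hc2]
      linarith

/-- the vertex type: pairs and unmatched vertices -/
abbrev KK (I Y : Type) := (I ⊕ I) ⊕ Y

variable {I Y : Type} [Fintype I] [Fintype Y] [DecidableEq I] [DecidableEq Y]

/-- block vectors -/
def bet (b : Y → Option I → ℤ) (j : Option I) : KK I Y → ℤ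
  | Sum.inl (Sum.inl k) => if j = some k then 1 else 0
  | Sum.inl (Sum.inr k) => if j = some k then -1 else 0
  | Sum.inr y => b y j

theorem bet_sum (b : Y → Option I → ℤ) (j : Option I) :
    ∑ v, bet b j v = ∑ y, b y j := by
  simp only [Fintype.sum_sum_type, bet]
  have : ∑ k : I, (if j = some k then (1:ℤ) else 0) + ∑ k : I, (if j = some k then (-1:ℤ) else 0)
      = 0 := by
    rw [← Finset.sum_add_distrib]
    refine Finset.sum_eq_zero fun k _ => ?_
    split_ifs <;> norm_num
  rw [this, zero_add]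

theorem bet_En_none (h : KK I Y → KK I Y → ℤ) (hY : ∀ y y', h (Sum.inr y) (Sum.inr y') = 0)
    (b : Y → Option I → ℤ) : En h (bet b none) = 0 := by
  unfold En
  simp [Fintype.sum_sum_type, bet, hY]

theorem bet_En_some (h : KK I Y → KK I Y → ℤ) (hw : Wt h)
    (hY : ∀ y y', h (Sum.inr y) (Sum.inr y') = 0)
    (b : Y → Option I → ℤ) (i : I) : En h (bet b (some i)) =
      -2 * h (Sum.inl (Sum.inl i)) (Sum.inl (Sum.inr i))
      + 2 * ∑ y, b y (some i) * (h (Sum.inl (Sum.inl i)) (Sum.inr y)
          - h (Sum.inl (Sum.inr i)) (Sum.inr y)) := by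
  unfold En
  simp only [Fintype.sum_sum_type, bet, hY, Option.some.injEq]
  have hd : ∀ (f : I → Y → ℤ), ∑ x, ∑ y, (if i = x then f x y else 0) = ∑ y, f i y := by
    intro f
    rw [Finset.sum_comm]
    refine Finset.sum_congr rfl fun y _ => by simp
  have hn : ∀ (f : I → ℤ), ∑ k : I, -(if i = k then f k else 0) = - f i := by
    intro f; simp
  have hsy : ∀ a b, h (Sum.inr a) b = h b (Sum.inr a) := fun a b => hw.1 _ _
  simp only [mul_ite, ite_mul, mul_one, one_mul, mul_neg, mul_zero, zero_mul,
    Finset.sum_add_distrib]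
  simp only [Finset.sum_ite_eq, Finset.mem_univ, if_true, hd, hn, hw.2, hsy,
    Finset.sum_neg_distrib, Finset.sum_const_zero]
  rw [hw.1 (Sum.inl (Sum.inr i)) (Sum.inl (Sum.inl i))]
  have e1 : ∑ y, b y (some i) * (h (Sum.inl (Sum.inl i)) (Sum.inr y)
          - h (Sum.inl (Sum.inr i)) (Sum.inr y))
      = ∑ y, h (Sum.inl (Sum.inl i)) (Sum.inr y) * b y (some i)
        - ∑ y, h (Sum.inl (Sum.inr i)) (Sum.inr y) * b y (some i) := by
    rw [← Finset.sum_sub_distrib]
    exact Finset.sum_congr rfl fun y _ => by ring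
  rw [e1]
  have e2 : ∑ y, h (Sum.inl (Sum.inr i)) (Sum.inr y) * (-1 * b y (some i))
      = - ∑ y, h (Sum.inl (Sum.inr i)) (Sum.inr y) * b y (some i) := by
    rw [← Finset.sum_neg_distrib]
    exact Finset.sum_congr rfl fun y _ => by ring
  simp only [e2]
  ring

theorem En_one_add {V : Type} [Fintype V] (h : V → V → ℤ) (x : V → ℤ) :
    En (fun u v => 1 + h u v) x = (∑ v, x v) ^ 2 + En h x := by
  unfold En
  simp only [add_mul, one_mul, Finset.sum_add_distrib]
  rw [sq, Finset.sum_mul_sum]

/-- signed unit vectors -/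
def IsU {J : Type} [DecidableEq J] (b : J → ℤ) : Prop :=
  ∃ (j : J) (c : ℤ), (c = 1 ∨ c = -1) ∧ b = fun k => if k = j then c else 0

/-- Inequality (I2): the general random-orientation inequality. -/
theorem I2 (h : KK I Y → KK I Y → ℤ) (hw : Wt h)
    (hY : ∀ y y', h (Sum.inr y) (Sum.inr y') = 0)
    (b : Y → Option I → ℤ) (hb : ∀ y, IsU (b y)) :
    ∃ x : KK I Y → ℤ, Sg x ∧ (∑ v, x v) ^ 2 + En h x ≤
      -2 * (∑ i, h (Sum.inl (Sum.inl i)) (Sum.inl (Sum.inr i)))
      + ∑ j, (∑ y, b y j) ^ 2
      + 2 * ∑ i, ∑ y, b y (some i) * (h (Sum.inl (Sum.inl i)) (Sum.inr y)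
          - h (Sum.inl (Sum.inr i)) (Sum.inr y)) := by
  obtain ⟨ε, hε, hE⟩ := block (fun u v => 1 + h u v) (fun u v => by rw [hw.1 u v]) (bet b)
    (Finset.univ : Finset (Option I))
  refine ⟨fun v => ∑ j, ε j * bet b j v, ?_, ?_⟩
  · rintro ((k | k) | y)
    · have : ∑ j, ε j * bet b j (Sum.inl (Sum.inl k)) = ε (some k) := by
        simp [bet]
      simp only [this]; exact hε _
    · have : ∑ j, ε j * bet b j (Sum.inl (Sum.inr k)) = - ε (some k) := by
        simp [bet]
      simp only [this]
      rcases hε (some k) with h | h <;> simp [h]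
    · obtain ⟨j, c, hc, hbj⟩ := hb y
      have : ∑ j, ε j * bet b j (Sum.inr y) = ε j * c := by
        simp [bet, hbj]
      simp only [this]
      rcases hc with h | h <;> rcases hε j with h' | h' <;> simp [h, h']
  · rw [En_one_add] at hE
    refine hE.trans (le_of_eq ?_)
    simp only [En_one_add, bet_sum, Finset.sum_add_distrib]
    rw [Fintype.sum_option (fun j => En h (bet b j)), bet_En_none h hY, zero_add]
    simp only [bet_En_some h hw hY, Finset.sum_add_distrib, ← Finset.mul_sum]
    ring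

end Pool.Agent.H439R2.MC
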