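import Pool.Agent.H439R2.MC.Struct

set_option autoImplicit false
set_option linter.unusedSectionVars false

namespace Pool.Agent.H439R2.MC
open Finset

/-- residual matrix -/
def res {V : Type} [DecidableEq V] (h : V → V → ℤ) (s : V → ℤ) : V → V → ℤ :=
  fun u v => 1 + h u v - s u * s v - (if u = v then 1 - s u ^ 2 else 0)

section
variable {V : Type} [Fintype V] [DecidableEq V]

theorem res_wt (h : V → V → ℤ) (hw : Wt h) (s : V → ℤ) : Wt (res h s) := by
  constructor
  · intro u v
    unfold res
    rw [hw.1 u v]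
    by_cases huv : u = v
    · subst huv; ring
    · simp [huv, Ne.symm huv]; ring
  · intro u; unfold res; rw [hw.2]; simp; ring

theorem res_En (h : V → V → ℤ) (s x : V → ℤ) (hx : Sg x) :
    En (res h s) x = (∑ v, x v) ^ 2 + En h x - (∑ v, s v * x v) ^ 2
      - (Fintype.card V - ∑ v, s v ^ 2) := by
  unfold En res
  simp only [sub_mul, add_mul, Finset.sum_sub_distrib, Finset.sum_add_distrib, one_mul]
  have e1 : ∑ u, ∑ v, x u * x v = (∑ v, x v) ^ 2 := by rw [sq, Finset.sum_mul_sum]
  have e2 : ∑ u, ∑ v, s u * s v * (x u * x v) = (∑ v, s v * x v) ^ 2 := by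
    rw [sq, Finset.sum_mul_sum]
    exact Finset.sum_congr rfl fun u _ => Finset.sum_congr rfl fun v _ => by ring
  have e3 : ∑ u, ∑ v, (if u = v then 1 - s u ^ 2 else 0) * (x u * x v)
      = Fintype.card V - ∑ v, s v ^ 2 := by
    have : ∀ u, ∑ v, (if u = v then 1 - s u ^ 2 else 0) * (x u * x v) = 1 - s u ^ 2 := by
      intro u
      rw [Finset.sum_eq_single u]
      · simp [hx.sq u]
      · intro b _ hb; simp [Ne.symm hb]
      · intro h; exact absurd (Finset.mem_univ _) h
    simp only [this, Finset.sum_sub_distrib]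
    simp
  rw [e1, e2, e3]

theorem res_tot (h : V → V → ℤ) (s : V → ℤ) :
    tot (res h s) = (Fintype.card V : ℤ) ^ 2 + tot h - (∑ v, s v) ^ 2
      - (Fintype.card V - ∑ v, s v ^ 2) := by
  have := res_En h s (fun _ => 1) (fun _ => Or.inl rfl)
  have e1 : En (res h s) (fun _ => 1) = tot (res h s) := by unfold En tot; simp
  have e2 : En h (fun _ => 1) = tot h := by unfold En tot; simp
  rw [e1, e2] at this
  rw [this]; simp

end

variable {I Y : Type} [Fintype I] [Fintype Y] [DecidableEq I] [DecidableEq Y]

/-- sizes -/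
def siz (g : I → ℤ) : KK I Y → ℤ
  | Sum.inl (Sum.inl i) => 1 + max (g i) 0
  | Sum.inl (Sum.inr i) => 1 + max (- g i) 0
  | Sum.inr _ => 1

theorem siz_pos (g : I → ℤ) (v : KK I Y) : 1 ≤ siz g v := by
  rcases v with (i | i) | y <;> simp [siz]

theorem siz_sum (g : I → ℤ) : ∑ v : KK I Y, siz g v =
    2 * Fintype.card I + Fintype.card Y + ∑ i, |g i| := by
  simp only [Fintype.sum_sum_type, siz, Finset.sum_add_distrib]
  have : ∀ i, |g i| = max (g i) 0 + max (- g i) 0 := by
    intro i
    rcases le_total 0 (g i) with h | h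
    · rw [abs_of_nonneg h, max_eq_left h, max_eq_right (by linarith)]; ring
    · rw [abs_of_nonpos h, max_eq_right h, max_eq_left (by linarith)]; ring
  simp only [this, Finset.sum_add_distrib]
  simp
  ring

/-- common part -/
def cc (h : KK I Y → KK I Y → ℤ) (i : I) (y : Y) : ℤ :=
  min (h (Sum.inl (Sum.inl i)) (Sum.inr y)) (h (Sum.inl (Sum.inr i)) (Sum.inr y))

theorem res_a (h : KK I Y → KK I Y → ℤ) (g : I → ℤ) (i : I) (y : Y) (hy : gam h y = g) :
    res h (siz g) (Sum.inl (Sum.inl i)) (Sum.inr y) = cc h i y := by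
  have h1 : gam h y i = g i := by rw [hy]
  unfold gam at h1
  simp only [res, siz, cc, reduceCtorEq, if_false]
  omega

theorem res_b (h : KK I Y → KK I Y → ℤ) (g : I → ℤ) (i : I) (y : Y) (hy : gam h y = g) :
    res h (siz g) (Sum.inl (Sum.inr i)) (Sum.inr y) = cc h i y := by
  have h1 : gam h y i = g i := by rw [hy]
  unfold gam at h1
  simp only [res, siz, cc, reduceCtorEq, if_false]
  omega

theorem res_y (h : KK I Y → KK I Y → ℤ) (g : I → ℤ) (hw : Wt h)
    (c1 : ∀ y y', h (Sum.inr y) (Sum.inr y') = 0) (y y' : Y) :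
    res h (siz g) (Sum.inr y) (Sum.inr y') = 0 := by
  simp only [res, siz, c1]
  split_ifs <;> norm_num

/-- the main step: balancing with twins -/
theorem core (h : KK I Y → KK I Y → ℤ) (hw : Wt h) (hpos : ∀ u v, 0 ≤ h u v)
    (c1 : ∀ y y', h (Sum.inr y) (Sum.inr y') = 0)
    (c2 : ∀ i, 1 ≤ h (Sum.inl (Sum.inl i)) (Sum.inl (Sum.inr i)))
    (c3 : ∀ i y y', y ≠ y' → 1 ≤ h (Sum.inl (Sum.inl i)) (Sum.inr y) →
      h (Sum.inl (Sum.inr i)) (Sum.inr y') ≤ 0)
    (c4 : ∀ i y, h (Sum.inl (Sum.inl i)) (Sum.inr y)
      ≤ h (Sum.inl (Sum.inl i)) (Sum.inl (Sum.inr i)))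
    (V' : ℤ) (H : ∀ x : KK I Y → ℤ, Sg x → - V' ≤ (∑ v, x v) ^ 2 + En h x)
    (hC : 2 * V' - 1 ≤ 2 * Fintype.card I + Fintype.card Y)
    (hD : V' + 3 ≤ 2 * Fintype.card I + Fintype.card Y) :
    ∃ (n' : ℤ) (R : KK I Y → KK I Y → ℤ), 2 * Fintype.card I + Fintype.card Y ≤ n' ∧ Wt R ∧
      (2 * Fintype.card I + Fintype.card Y : ℤ) ^ 2 + tot h - n' ^ 2
        - (2 * Fintype.card I + Fintype.card Y) + n' ≤ tot R ∧
      ∀ c, HC R c → ∃ x : KK I Y → ℤ, Sg x ∧
        (∑ v, x v) ^ 2 + En h x ≤ (2 * Fintype.card I + Fintype.card Y : ℤ) ^ 2 + tot h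
          - n' ^ 2 + 1 - 4 * c := by
  classical
  obtain ⟨g, ρ, mis, hdev, hI1, hm0, hm1, hmp⟩ := struct h hw c1 c2 V' H hD
  set s : KK I Y → ℤ := siz g with hs
  set R := res h s with hR
  have hRw : Wt R := res_wt h hw s
  set d := ∑ i, |g i| with hd
  have hd0 : 0 ≤ d := Finset.sum_nonneg fun i _ => abs_nonneg _
  have hcardK : (Fintype.card (KK I Y) : ℤ) = 2 * Fintype.card I + Fintype.card Y := by
    simp only [Fintype.card_sum]; push_cast; ring
  have hsum : ∑ v, s v = 2 * Fintype.card I + Fintype.card Y + d := siz_sum g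
  refine ⟨2 * Fintype.card I + Fintype.card Y + d, R, by linarith, hRw, ?_, ?_⟩
  · rw [hR, res_tot, hcardK, hsum]
    have : ∑ v, s v ≤ ∑ v, s v ^ 2 := Finset.sum_le_sum fun v _ => by
      have := siz_pos (Y := Y) g v
      nlinarith
    rw [hsum] at this
    linarith
  intro c hc
  -- the relation between the energies
  have hrel : ∀ x, Sg x → (∑ v, x v) ^ 2 + En h x
      = (2 * Fintype.card I + Fintype.card Y : ℤ) ^ 2 + tot h
        - (2 * Fintype.card I + Fintype.card Y + d) ^ 2 + (∑ v, s v * x v) ^ 2
        - (tot R - En R x) := by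
    intro x hx
    rw [hR, res_tot, res_En h s x hx, hcardK, hsum]; ring
  let Yp : Y → Prop := fun y => gam h y = g ∧ ∀ i, cc h i y = 0
  let J : (KK I Y → ℤ) → ℤ := fun x => ∑ v, s v * x v - ∑ y, (if Yp y then x (Sum.inr y) else 0)
  obtain ⟨x0, hx0, hP0, hmin0⟩ := exists_min_sg (V := KK I Y) (fun x => En R x ≤ tot R - 4 * c)
    (fun x => |J x|) (by obtain ⟨x, hx, h⟩ := hc; exact ⟨x, hx, h⟩)
  -- normalise the sign
  obtain ⟨x, hx, hP, hmin, hJ0⟩ : ∃ x, Sg x ∧ En R x ≤ tot R - 4 * c ∧
      (∀ y, Sg y → En R y ≤ tot R - 4 * c → |J x| ≤ |J y|) ∧ 0 ≤ J x := by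
    rcases le_total 0 (J x0) with h | h
    · exact ⟨x0, hx0, hP0, hmin0, h⟩
    · have hJn : J (fun v => - x0 v) = - J x0 := by
        simp only [J, mul_neg, Finset.sum_neg_distrib]
        have : ∑ y, (if Yp y then - x0 (Sum.inr y) else 0)
            = - ∑ y, (if Yp y then x0 (Sum.inr y) else 0) := by
          rw [← Finset.sum_neg_distrib]
          exact Finset.sum_congr rfl fun y _ => by split_ifs <;> simp
        rw [this]; ring
      refine ⟨fun v => - x0 v, hx0.neg, ?_, ?_, ?_⟩
      · rw [En_neg]; exact hP0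
      · intro y hy hE
        rw [hJn, abs_neg]
        exact hmin0 y hy hE
      · rw [hJn]; linarith
  clear hmin0 hP0 hx0 x0
  -- twins have zero residual
  have hYp0 : ∀ y v, Yp y → R (Sum.inr y) v = 0 := by
    intro y v hy
    rcases v with (i | i) | y'
    · rw [hRw.1, hR, hs, res_a h g i y hy.1, hy.2 i]
    · rw [hRw.1, hR, hs, res_b h g i y hy.1, hy.2 i]
    · rw [hR, hs]; exact res_y h g hw c1 y y'
  set np : ℕ := (Finset.univ.filter Yp).card with hnp
  by_cases hbal : J x ≤ np + 1
  · -- balance
    obtain ⟨σ, hσ, hσ1, hσ2⟩ := exists_sg_bal {y // Yp y} (J x) hJ0 (by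
      rw [Fintype.card_subtype]; exact hbal)
    let x' : KK I Y → ℤ := fun v => match v with
      | Sum.inl q => x (Sum.inl q)
      | Sum.inr y => if hy : Yp y then σ ⟨y, hy⟩ else x (Sum.inr y)
    have hx' : Sg x' := by
      rintro (q | y)
      · exact hx _
      · by_cases hy : Yp y
        · simpa [x', hy] using hσ ⟨y, hy⟩
        · simpa [x', hy] using hx (Sum.inr y)
    have hEn : En R x' = En R x := by
      unfold En
      refine Finset.sum_congr rfl fun u _ => Finset.sum_congr rfl fun v _ => ?_
      rcases u with u | u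
      · rcases v with v | v
        · rfl
        · by_cases hv : Yp v
          · rw [hRw.1, hYp0 v _ hv]; simp
          · simp [x', hv]
      · by_cases hu : Yp u
        · rw [hYp0 u _ hu]; simp
        · rcases v with v | v
          · simp [x', hu]
          · by_cases hv : Yp v
            · rw [hRw.1, hYp0 v _ hv]; simp
            · simp [x', hu, hv]
    have hSs : ∑ v, s v * x' v = J x + ∑ y, σ y := by
      have h1 : ∑ y : {y // Yp y}, σ y = ∑ y, (if Yp y then x' (Sum.inr y) else 0) := by
        rw [← Finset.sum_filter]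
        rw [Finset.sum_subtype (Finset.univ.filter Yp) (p := Yp) (by simp)]
        refine Finset.sum_congr rfl fun z _ => ?_
        simp [x', z.2]
      rw [h1]
      simp only [J, Fintype.sum_sum_type]
      have h2 : ∑ y, s (Sum.inr y) * x' (Sum.inr y) =
          ∑ y, s (Sum.inr y) * x (Sum.inr y) - ∑ y, (if Yp y then x (Sum.inr y) else 0)
          + ∑ y, (if Yp y then x' (Sum.inr y) else 0) := by
        rw [← Finset.sum_sub_distrib, ← Finset.sum_add_distrib]
        refine Finset.sum_congr rfl fun y _ => ?_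
        have : s (Sum.inr y) = 1 := rfl
        rw [this]
        by_cases hy : Yp y
        · simp [hy]
        · simp [hy, x']
      rw [h2]
      simp only [x']
      ring
    refine ⟨x', hx', ?_⟩
    rw [hrel x' hx', hEn, hSs]
    have : (J x + ∑ y, σ y) ^ 2 ≤ 1 := by nlinarith
    linarith
  · exfalso
    push Not at hbal
    have hJ2 : (2:ℤ) ≤ J x := by
      have : (0:ℤ) ≤ np := Int.natCast_nonneg _
      linarith
    -- moves
    have hmove : ∀ v : KK I Y, x v = 1 → s v = 1 → (∀ y, v = Sum.inr y → ¬ Yp y) →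
        row R x v < 0 := by
      intro v hv hsv hvp
      by_contra hcon
      push Not at hcon
      have hE : En R (fun z => if z = v then - x z else x z) ≤ tot R - 4 * c := by
        rw [En_flip R hRw, hv]; linarith
      have h1 := hmin _ (hx.flip v) hE
      have h2 : J (fun z => if z = v then - x z else x z) = J x - 2 := by
        simp only [J]
        have h3 : ∑ z, s z * (if z = v then - x z else x z) = ∑ z, s z * x z - 2 := by
          have : ∀ z, s z * (if z = v then - x z else x z)
              = s z * x z - (if z = v then 2 else 0) := by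
            intro z
            split_ifs with h
            · subst h; rw [hv, hsv]; norm_num
            · ring
          simp only [this, Finset.sum_sub_distrib]
          simp
        have h4 : ∀ y, (if Yp y then (if (Sum.inr y : KK I Y) = v then - x (Sum.inr y)
            else x (Sum.inr y)) else 0) = (if Yp y then x (Sum.inr y) else 0) := by
          intro y
          by_cases hy : Yp y
          · have : (Sum.inr y : KK I Y) ≠ v := fun h => hvp y h.symm hy
            simp [hy, this]
          · simp [hy]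
        rw [h3]
        simp only [h4]
        ring
      rw [h2, abs_of_nonneg hJ0, abs_of_nonneg (by linarith)] at h1
      linarith
    let Yt : Y → Prop := fun y => gam h y = g ∧ ∃ i, cc h i y ≠ 0
    have hcc0 : ∀ i y, 0 ≤ cc h i y := fun i y => le_min (hpos _ _) (hpos _ _)
    have hccu : ∀ i y y', 1 ≤ cc h i y → 1 ≤ cc h i y' → y = y' := by
      intro i y y' h1 h2
      by_contra hne
      have h3 := c3 i y y' hne (h1.trans (min_le_left _ _))
      have h4 := h2.trans (min_le_right _ _)
      linarith
    set τ : ℕ := (Finset.univ.filter (fun i : I => x (Sum.inl (Sum.inl i)) = -1 ∧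
      x (Sum.inl (Sum.inr i)) = -1)).card with hτ
    -- attached pairs
    have hatt : ∀ y, Yt y → x (Sum.inr y) = 1 → ∃ i, 1 ≤ cc h i y ∧
        x (Sum.inl (Sum.inl i)) = -1 ∧ x (Sum.inl (Sum.inr i)) = -1 := by
      intro y hy hxy
      have h1 := hmove (Sum.inr y) hxy rfl (by
        intro y' hy' hyp
        obtain ⟨i, hi⟩ := hy.2
        have : y = y' := by simpa using hy'
        subst this
        exact hi (hyp.2 i))
      have h2 : row R x (Sum.inr y) = ∑ i, cc h i y * (x (Sum.inl (Sum.inl i))
          + x (Sum.inl (Sum.inr i))) := by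
        unfold row
        simp only [Fintype.sum_sum_type]
        have e1 : ∀ i, R (Sum.inr y) (Sum.inl (Sum.inl i)) = cc h i y := by
          intro i; rw [hRw.1, hR, hs]; exact res_a h g i y hy.1
        have e2 : ∀ i, R (Sum.inr y) (Sum.inl (Sum.inr i)) = cc h i y := by
          intro i; rw [hRw.1, hR, hs]; exact res_b h g i y hy.1
        have e3 : ∀ y', R (Sum.inr y) (Sum.inr y') = 0 := by
          intro y'; rw [hR, hs]; exact res_y h g hw c1 y y'
        simp only [e1, e2, e3, zero_mul, Finset.sum_const_zero, add_zero]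
        rw [← Finset.sum_add_distrib]
        exact Finset.sum_congr rfl fun i _ => by ring
      rw [h2] at h1
      obtain ⟨i, -, hi⟩ := Finset.exists_lt_of_sum_lt (s := (Finset.univ : Finset I))
        (f := fun i => cc h i y * (x (Sum.inl (Sum.inl i)) + x (Sum.inl (Sum.inr i))))
        (g := fun _ => 0) (by simpa using h1)
      refine ⟨i, ?_, ?_⟩
      · rcases Int.lt_or_le 0 (cc h i y) with h3 | h3
        · linarith
        · have : cc h i y = 0 := le_antisymm h3 (hcc0 i y)
          rw [this] at hi; simp at hi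
      · have h3 : 0 ≤ cc h i y := hcc0 i y
        rcases hx (Sum.inl (Sum.inl i)) with h4 | h4 <;>
          rcases hx (Sum.inl (Sum.inr i)) with h5 | h5
        · rw [h4, h5] at hi; linarith
        · rw [h4, h5] at hi; simp at hi
        · rw [h4, h5] at hi; simp at hi
        · exact ⟨h4, h5⟩
    have htA : (Finset.univ.filter (fun y => Yt y ∧ x (Sum.inr y) = 1)).card ≤ τ := by
      rcases isEmpty_or_nonempty I with hIe | hIe
      · have : (Finset.univ.filter (fun y => Yt y ∧ x (Sum.inr y) = 1)) = ∅ := by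
          rw [Finset.filter_eq_empty_iff]
          rintro y _ ⟨⟨_, i, _⟩, _⟩
          exact hIe.elim i
        rw [this]; simp
      choose! φ hφ using hatt
      refine Finset.card_le_card_of_injOn φ ?_ ?_
      · intro y hy
        simp only [Finset.coe_filter, Finset.mem_univ, true_and, Set.mem_ofPred_eq] at hy ⊢
        exact (hφ y hy.1 hy.2).2
      · intro y hy y' hy' heq
        simp only [Finset.coe_filter, Finset.mem_univ, true_and, Set.mem_ofPred_eq] at hy hy'
        have h1 := (hφ y hy.1 hy.2).1
        have h2 := (hφ y' hy'.1 hy'.2).1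
        rw [← heq] at h2
        exact hccu _ _ _ h1 h2
    -- the count
    have hJval : J x = ∑ i, (s (Sum.inl (Sum.inl i)) * x (Sum.inl (Sum.inl i))
          + s (Sum.inl (Sum.inr i)) * x (Sum.inl (Sum.inr i)))
        + ∑ y, (if Yp y then 0 else x (Sum.inr y)) := by
      simp only [J, Fintype.sum_sum_type, Finset.sum_add_distrib]
      have : ∑ y, s (Sum.inr y) * x (Sum.inr y) = ∑ y, (if Yp y then x (Sum.inr y) else 0)
          + ∑ y, (if Yp y then 0 else x (Sum.inr y)) := by
        rw [← Finset.sum_add_distrib]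
        refine Finset.sum_congr rfl fun y _ => ?_
        have : s (Sum.inr y) = 1 := rfl
        rw [this]
        split_ifs <;> ring
      rw [this]; ring
    set nt : ℕ := (Finset.univ.filter Yt).card with hnt
    set nd : ℕ := (Finset.univ.filter (fun y => gam h y ≠ g)).card with hnd
    have hY1 : ∑ y, (if Yp y then 0 else x (Sum.inr y)) ≤ 2 * (τ : ℤ) - nt + nd := by
      have h1 : ∀ y, (if Yp y then 0 else x (Sum.inr y)) ≤
          2 * (if Yt y ∧ x (Sum.inr y) = 1 then (1:ℤ) else 0) - (if Yt y then 1 else 0)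
          + (if gam h y ≠ g then 1 else 0) := by
        intro y
        by_cases hg : gam h y = g
        · by_cases hc : ∀ i, cc h i y = 0
          · have hyp : Yp y := ⟨hg, hc⟩
            have hyt : ¬ Yt y := by rintro ⟨_, i, hi⟩; exact hi (hc i)
            simp [hyp, hyt, hg]
          · have hyp : ¬ Yp y := fun h => hc h.2
            have hyt : Yt y := by push Not at hc; exact ⟨hg, hc⟩
            rcases hx (Sum.inr y) with h | h <;> simp [hyp, hyt, hg, h]
        · have hyp : ¬ Yp y := fun h => hg h.1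
          have hyt : ¬ Yt y := fun h => hg h.1
          rcases hx (Sum.inr y) with h | h <;> simp [hyp, hyt, hg, h]
      refine (Finset.sum_le_sum fun y _ => h1 y).trans ?_
      rw [Finset.sum_add_distrib, Finset.sum_sub_distrib, ← Finset.mul_sum]
      have k0 : ∑ y, (if Yt y ∧ x (Sum.inr y) = 1 then (1:ℤ) else 0)
          = ((Finset.univ.filter (fun y => Yt y ∧ x (Sum.inr y) = 1)).card : ℤ) :=
        Finset.sum_boole (fun y => Yt y ∧ x (Sum.inr y) = 1) Finset.univ
      have k1 : ∑ y, (if Yt y then (1:ℤ) else 0) = nt := Finset.sum_boole Yt Finset.univ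
      have k2 : ∑ y, (if gam h y ≠ g then (1:ℤ) else 0) = nd :=
        Finset.sum_boole (fun y => gam h y ≠ g) Finset.univ
      rw [k0, k1, k2]
      have : (((Finset.univ.filter (fun y => Yt y ∧ x (Sum.inr y) = 1)).card : ℕ) : ℤ) ≤ τ := by
        exact_mod_cast htA
      linarith
    have hcardY : (Fintype.card Y : ℤ) = np + nt + nd := by
      have h1 : ∀ y : Y, (1:ℤ) = (if Yp y then 1 else 0) + (if Yt y then 1 else 0)
          + (if gam h y ≠ g then 1 else 0) := by
        intro y
        by_cases hg : gam h y = g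
        · by_cases hc : ∀ i, cc h i y = 0
          · have hyp : Yp y := ⟨hg, hc⟩
            have hyt : ¬ Yt y := by rintro ⟨_, i, hi⟩; exact hi (hc i)
            simp [hyp, hyt, hg]
          · have hyp : ¬ Yp y := fun h => hc h.2
            have hyt : Yt y := by push Not at hc; exact ⟨hg, hc⟩
            simp [hyp, hyt, hg]
        · have hyp : ¬ Yp y := fun h => hg h.1
          have hyt : ¬ Yt y := fun h => hg h.1
          simp [hyp, hyt, hg]
      have h2 : (Fintype.card Y : ℤ) = ∑ y : Y, (1:ℤ) := by simp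
      have k0 : ∑ y, (if Yp y then (1:ℤ) else 0) = np := Finset.sum_boole Yp Finset.univ
      have k1 : ∑ y, (if Yt y then (1:ℤ) else 0) = nt := Finset.sum_boole Yt Finset.univ
      have k2 : ∑ y, (if gam h y ≠ g then (1:ℤ) else 0) = nd :=
        Finset.sum_boole (fun y => gam h y ≠ g) Finset.univ
      rw [h2, Finset.sum_congr rfl fun y _ => h1 y, Finset.sum_add_distrib,
        Finset.sum_add_distrib, k0, k1, k2]
    have hQ1 : ∑ i, (s (Sum.inl (Sum.inl i)) * x (Sum.inl (Sum.inl i))
          + s (Sum.inl (Sum.inr i)) * x (Sum.inl (Sum.inr i)))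
        ≤ 2 * Fintype.card I + d - 4 * τ := by
      have h1 : ∀ i, s (Sum.inl (Sum.inl i)) * x (Sum.inl (Sum.inl i))
          + s (Sum.inl (Sum.inr i)) * x (Sum.inl (Sum.inr i))
          ≤ s (Sum.inl (Sum.inl i)) + s (Sum.inl (Sum.inr i))
            - 4 * (if x (Sum.inl (Sum.inl i)) = -1 ∧ x (Sum.inl (Sum.inr i)) = -1
              then (1:ℤ) else 0) := by
        intro i
        have h2 := siz_pos (Y := Y) g (Sum.inl (Sum.inl i))
        have h3 := siz_pos (Y := Y) g (Sum.inl (Sum.inr i))
        rw [← hs] at h2 h3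
        rcases hx (Sum.inl (Sum.inl i)) with h4 | h4 <;>
          rcases hx (Sum.inl (Sum.inr i)) with h5 | h5 <;> simp [h4, h5] <;> linarith
      refine (Finset.sum_le_sum fun i _ => h1 i).trans ?_
      rw [Finset.sum_sub_distrib, ← Finset.mul_sum]
      simp only [Finset.sum_boole]
      have h4 : ∑ i, (s (Sum.inl (Sum.inl i)) + s (Sum.inl (Sum.inr i)))
          = 2 * Fintype.card I + d := by
        have := hsum
        simp only [Fintype.sum_sum_type] at this
        have h5 : ∑ y : Y, s (Sum.inr y) = Fintype.card Y := by simp [hs, siz]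
        rw [h5] at this
        rw [Finset.sum_add_distrib]
        linarith
      rw [h4]
    have hdev' : (nd : ℤ) ≤ ρ := by exact_mod_cast hdev
    have hρ0 : (0:ℤ) ≤ ρ := Int.natCast_nonneg _
    have hτ0 : (0:ℤ) ≤ τ := Int.natCast_nonneg _
    have hnd0 : (0:ℤ) ≤ nd := Int.natCast_nonneg _
    -- only the borderline case survives
    have hkey : (np : ℤ) + 2 ≤ 2 * Fintype.card I + d - 2 * τ - nt + nd := by
      rw [hJval] at hbal; linarith
    have hb1 : mis = 1 := by omega
    have hmp' := hmp hb1
    have hb2 : τ = 0 ∧ ρ = 0 ∧ d = 0 := by omega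
    obtain ⟨hτz, hρz, hdz⟩ := hb2
    have hg0 : ∀ i, g i = 0 := by
      intro i
      have h1 := (Finset.sum_eq_zero_iff_of_nonneg (fun i _ => abs_nonneg (g i))).1 hdz i
        (Finset.mem_univ _)
      exact abs_eq_zero.1 h1
    have hs1 : ∀ v, s v = 1 := by
      rintro ((i | i) | y)
      · simp [hs, siz, hg0]
      · simp [hs, siz, hg0]
      · rfl
    have hdev0 : ∀ y, gam h y = g := by
      intro y
      by_contra hcon
      have h1 : y ∈ (Finset.univ.filter (fun y => gam h y ≠ g)) := by simp [hcon]
      have h2 : 0 < (Finset.univ.filter (fun y => gam h y ≠ g)).card :=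
        Finset.card_pos.2 ⟨y, h1⟩
      omega
    -- all matched vertices are on the positive side
    have hQ2 : ∀ i, x (Sum.inl (Sum.inl i)) = 1 ∧ x (Sum.inl (Sum.inr i)) = 1 := by
      by_contra hcon
      push Not at hcon
      obtain ⟨i0, hi0⟩ := hcon
      have h1 : ∑ i, (s (Sum.inl (Sum.inl i)) * x (Sum.inl (Sum.inl i))
          + s (Sum.inl (Sum.inr i)) * x (Sum.inl (Sum.inr i))) ≤ 2 * Fintype.card I - 2 := by
        have h2 : ∀ i, s (Sum.inl (Sum.inl i)) * x (Sum.inl (Sum.inl i))
            + s (Sum.inl (Sum.inr i)) * x (Sum.inl (Sum.inr i))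
            ≤ 2 - (if i = i0 then 2 else 0) := by
          intro i
          rw [hs1, hs1]
          by_cases hi : i = i0
          · subst hi
            rcases hx (Sum.inl (Sum.inl i)) with h4 | h4 <;>
              rcases hx (Sum.inl (Sum.inr i)) with h5 | h5 <;> simp [h4, h5] at hi0 ⊢
          · rcases hx (Sum.inl (Sum.inl i)) with h4 | h4 <;>
              rcases hx (Sum.inl (Sum.inr i)) with h5 | h5 <;> simp [h4, h5, hi]
        refine (Finset.sum_le_sum fun i _ => h2 i).trans ?_
        rw [Finset.sum_sub_distrib]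
        simp
        linarith
      rw [hJval] at hbal
      omega
    have hIne : Nonempty I := by
      by_contra hne
      rw [not_nonempty_iff] at hne
      have : Fintype.card I = 0 := Fintype.card_eq_zero
      omega
    obtain ⟨i⟩ := hIne
    have h1 := hmove (Sum.inl (Sum.inl i)) (hQ2 i).1 (hs1 _) (by intro y hy; simp at hy)
    have hRh : ∀ u v, R u v = h u v := by
      intro u v
      rw [hR]
      unfold res
      rw [hs1, hs1]
      split_ifs <;> ring
    unfold row at h1
    simp only [Fintype.sum_sum_type, hRh, (hQ2 _).1, (hQ2 _).2, mul_one] at h1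
    have e1 : 0 ≤ ∑ k, h (Sum.inl (Sum.inl i)) (Sum.inl (Sum.inl k)) :=
      Finset.sum_nonneg fun k _ => hpos _ _
    have e2 : h (Sum.inl (Sum.inl i)) (Sum.inl (Sum.inr i))
        ≤ ∑ k, h (Sum.inl (Sum.inl i)) (Sum.inl (Sum.inr k)) :=
      Finset.single_le_sum (f := fun k => h (Sum.inl (Sum.inl i)) (Sum.inl (Sum.inr k)))
        (fun k _ => hpos _ _) (Finset.mem_univ i)
    have e3 : - h (Sum.inl (Sum.inl i)) (Sum.inl (Sum.inr i))
        ≤ ∑ y, h (Sum.inl (Sum.inl i)) (Sum.inr y) * x (Sum.inr y) := by
      have h2 : ∀ y, h (Sum.inl (Sum.inl i)) (Sum.inr y) = cc h i y := by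
        intro y
        have h3 : gam h y i = g i := by rw [hdev0]
        rw [hg0] at h3
        unfold gam at h3
        unfold cc
        omega
      by_cases hex : ∃ y, 1 ≤ cc h i y
      · obtain ⟨y, hy⟩ := hex
        rw [Finset.sum_eq_single y]
        · have h4 := c4 i y
          have h5 := hpos (Sum.inl (Sum.inl i)) (Sum.inr y)
          rcases hx (Sum.inr y) with h6 | h6 <;> rw [h6] <;> linarith
        · intro y' _ hne
          have : cc h i y' = 0 := by
            by_contra hcon
            have h6 := hcc0 i y'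
            exact hne (hccu i y' y (by omega) hy)
          rw [h2, this, zero_mul]
        · intro h; exact absurd (Finset.mem_univ _) h
      · push Not at hex
        have : ∑ y, h (Sum.inl (Sum.inl i)) (Sum.inr y) * x (Sum.inr y) = 0 := by
          refine Finset.sum_eq_zero fun y _ => ?_
          have h6 := hcc0 i y
          have h7 := hex y
          have : cc h i y = 0 := by omega
          rw [h2, this, zero_mul]
        rw [this]
        have := hpos (Sum.inl (Sum.inl i)) (Sum.inl (Sum.inr i))
        linarith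
    linarith

end Pool.Agent.H439R2.MC
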