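import Pool.Agent.H439R2.MC.Simple

set_option autoImplicit false
set_option linter.unusedSectionVars false

namespace Pool.Agent.H439R2.MC
open Finset

/-- `F(m)`: the least value of `∑ ⌊n_i²/4⌋` over finite lists of integers `n_i` with
`∑ C(n_i,2) ≥ m`. -/
noncomputable def FF (m : ℕ) : ℕ :=
  sInf {c | ∃ L : List ℕ, m ≤ (L.map (fun n => n.choose 2)).sum ∧
    c = (L.map (fun n => n ^ 2 / 4)).sum}

theorem FF_le {m : ℕ} (L : List ℕ) (h : m ≤ (L.map (fun n => n.choose 2)).sum) :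
    FF m ≤ (L.map (fun n => n ^ 2 / 4)).sum := Nat.sInf_le ⟨L, h, rfl⟩

theorem FF_spec (m : ℕ) : ∃ L : List ℕ, m ≤ (L.map (fun n => n.choose 2)).sum ∧
    FF m = (L.map (fun n => n ^ 2 / 4)).sum := by
  have hne : {c | ∃ L : List ℕ, m ≤ (L.map (fun n => n.choose 2)).sum ∧
    c = (L.map (fun n => n ^ 2 / 4)).sum}.Nonempty := by
    refine ⟨_, List.replicate m 2, ?_, rfl⟩
    simp
  exact Nat.sInf_mem hne

theorem FF_zero : FF 0 = 0 := by
  have := FF_le (m := 0) [] (by simp)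
  simpa using this

theorem FF_P (m n k : ℕ) (h : 2 * m ≤ n * (n - 1) + 2 * k) : FF m ≤ n ^ 2 / 4 + FF k := by
  obtain ⟨L, hL, hF⟩ := FF_spec k
  rw [hF]
  have := FF_le (m := m) (n :: L) (by
    rw [List.map_cons, List.sum_cons, Nat.choose_two_right]
    have := even_tri n
    omega)
  simpa using this

theorem ff_eq_FF (m : ℕ) : ff m = FF m := by
  apply le_antisymm
  · obtain ⟨L, hL, hF⟩ := FF_spec m
    rw [hF]
    apply ff_le
    apply SG_mono m _ _ hL
    clear hL hF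
    induction L with
    | nil => simpa using SG_complete 0
    | cons n L ih =>
      rw [List.map_cons, List.sum_cons, List.map_cons, List.sum_cons, Nat.choose_two_right]
      exact SG_add _ _ _ _ (SG_complete n) ih
  · obtain ⟨V, _, _, w, hw, h01, ht, hc⟩ := ff_spec m
    obtain ⟨x, hx, hE⟩ := main FF FF_zero FF_P m V w hw (by rw [ht])
    have := hc x hx
    have h3 : (FF m : ℤ) ≤ ff m := by linarith
    exact_mod_cast h3

/-- Edwards' bound as a function: the least `c` with `m ≤ 2c` and `m ≤ u(2u+1)`, `u = 2c - m`. -/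
noncomputable def ed (m : ℕ) : ℕ := sInf {c | m ≤ 2 * c ∧ m ≤ (2 * c - m) * (2 * (2 * c - m) + 1)}

theorem ed_spec (m : ℕ) : m ≤ 2 * ed m ∧ m ≤ (2 * ed m - m) * (2 * (2 * ed m - m) + 1) := by
  have hne : {c | m ≤ 2 * c ∧ m ≤ (2 * c - m) * (2 * (2 * c - m) + 1)}.Nonempty := by
    refine ⟨m, by omega, ?_⟩
    have : 2 * m - m = m := by omega
    rw [this]
    nlinarith
  exact Nat.sInf_mem hne

theorem ed_le {m c : ℕ} (h1 : m ≤ 2 * c) (h2 : m ≤ (2 * c - m) * (2 * (2 * c - m) + 1)) :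
    ed m ≤ c := Nat.sInf_le ⟨h1, h2⟩

theorem ed_P (m n k : ℕ) (h : 2 * m ≤ n * (n - 1) + 2 * k) : ed m ≤ n ^ 2 / 4 + ed k := by
  obtain ⟨h1, h2⟩ := ed_spec k
  -- 2 ⌊n²/4⌋ = C(n,2) + ⌊n/2⌋
  have h3 : 2 * (n ^ 2 / 4) = n * (n - 1) / 2 + n / 2 := by
    rcases Nat.even_or_odd' n with ⟨q, rfl | rfl⟩
    · have e1 : (2 * q) ^ 2 / 4 = q ^ 2 := by
        have : (2 * q) ^ 2 = 4 * q ^ 2 := by ring
        rw [this]; simp
      have e2 : 2 * q * (2 * q - 1) / 2 = q * (2 * q - 1) := by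
        have : 2 * q * (2 * q - 1) = 2 * (q * (2 * q - 1)) := by ring
        rw [this]; simp
      rw [e1, e2]
      have e3 : 2 * q / 2 = q := by omega
      rw [e3]
      rcases Nat.eq_zero_or_pos q with h | h
      · subst h; simp
      · obtain ⟨t, rfl⟩ : ∃ t, q = t + 1 := ⟨q - 1, by omega⟩
        have : 2 * (t + 1) - 1 = 2 * t + 1 := by omega
        rw [this]; ring
    · have e1 : (2 * q + 1) ^ 2 / 4 = q ^ 2 + q := by
        have : (2 * q + 1) ^ 2 = 4 * (q ^ 2 + q) + 1 := by ring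
        rw [this]; omega
      have e2 : (2 * q + 1) * (2 * q + 1 - 1) / 2 = (2 * q + 1) * q := by
        have : (2 * q + 1) * (2 * q + 1 - 1) = 2 * ((2 * q + 1) * q) := by
          have : 2 * q + 1 - 1 = 2 * q := by omega
          rw [this]; ring
        rw [this]; simp
      rw [e1, e2]
      have e3 : (2 * q + 1) / 2 = q := by omega
      rw [e3]; ring
  have h4 := even_tri n
  have h5 : m ≤ n * (n - 1) / 2 + k := by omega
  set u := 2 * ed k - k with hu
  set p := n / 2 with hp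
  have hU : u + p ≤ 2 * (n ^ 2 / 4 + ed k) - m := by omega
  apply ed_le
  · omega
  · calc m ≤ n * (n - 1) / 2 + k := h5
      _ ≤ p * (2 * p + 1) + u * (2 * u + 1) := by
        have h6 : n * (n - 1) / 2 ≤ p * (2 * p + 1) := by
          have h7 : n * (n - 1) ≤ (2 * p + 1) * (2 * p) := by
            have : n ≤ 2 * p + 1 := by omega
            have h8 : n - 1 ≤ 2 * p := by omega
            exact Nat.mul_le_mul this h8
          have h9 : (2 * p + 1) * (2 * p) = 2 * (p * (2 * p + 1)) := by ring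
          omega
        omega
      _ ≤ (u + p) * (2 * (u + p) + 1) := by nlinarith
      _ ≤ (2 * (n ^ 2 / 4 + ed k) - m) * (2 * (2 * (n ^ 2 / 4 + ed k) - m) + 1) :=
        Nat.mul_le_mul hU (by omega)

theorem ed_zero : ed 0 = 0 := by
  have := ed_le (m := 0) (c := 0) (by norm_num) (by norm_num)
  omega

theorem ed_le_ff (m : ℕ) : ed m ≤ ff m := by
  obtain ⟨V, _, _, w, hw, h01, ht, hc⟩ := ff_spec m
  obtain ⟨x, hx, hE⟩ := main ed ed_zero ed_P m V w hw (by rw [ht])
  have := hc x hx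
  have h3 : (ed m : ℤ) ≤ ff m := by linarith
  exact_mod_cast h3

theorem ff_edwards (m : ℕ) : m ≤ 2 * ff m ∧ m ≤ (2 * ff m - m) * (2 * (2 * ff m - m) + 1) := by
  obtain ⟨h1, h2⟩ := ed_spec m
  have h3 := ed_le_ff m
  refine ⟨by omega, h2.trans ?_⟩
  have : 2 * ed m - m ≤ 2 * ff m - m := by omega
  exact Nat.mul_le_mul this (by omega)

theorem ff_le_self (m : ℕ) : ff m ≤ m := by
  induction m with
  | zero => rw [ff_zero]
  | succ m ih =>
    have := ff_P (m + 1) 2 m (by omega)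
    norm_num at this
    omega

theorem chk3 : ∀ n < 26, ∀ k < n, n * (n - 1) / 2 + k = 0 ∨
    (2 * gU n k - (n * (n - 1) / 2 + k) - 2) ^ 2 ≤ n * (n - 1) / 2 + k := by
  decide +kernel

/-- `(u-2)² ≤ j` where `u = 2 f(j) - j`, for `j ≥ 1`. -/
theorem ff_sq (j : ℕ) (hj : 1 ≤ j) : (2 * ff j - j - 2) ^ 2 ≤ j := by
  obtain ⟨n, k, hk, hm⟩ := tri j
  by_cases hn : n < 26
  · have h1 := f_le_gU ff ff_zero ff_P n k hk (by omega)
    have h2 := chk3 n hn k hk
    rw [← hm] at h1 h2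
    rcases h2 with h2 | h2
    · omega
    · refine le_trans (Nat.pow_le_pow_left (by omega) 2) h2
  · push Not at hn
    have h1 := ff_P j n k (by have := even_tri n; omega)
    have h2 := lin_bound ff ff_zero ff_P k
    have h5 := even_tri n
    have h3 : 2 * (2 * (n ^ 2 / 4)) ≤ n ^ 2 := by omega
    -- 16 (2 f j - j) ≤ 8 n + k + 86
    have hnn : n * n = 2 * (n * (n - 1) / 2) + n := by
      rw [h5, Nat.mul_sub, mul_one]
      have : n ≤ n * n := Nat.le_mul_self n
      omega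
    have hU : 16 * (2 * ff j - j - 2) ≤ 8 * n + k + 54 := by
      have : n ^ 2 = n * n := by ring
      omega
    have hV : 16 * (2 * ff j - j - 2) ≤ 9 * n + 53 := by omega
    have h6 : 256 * (2 * ff j - j - 2) ^ 2 ≤ (9 * n + 53) ^ 2 := by
      have := Nat.pow_le_pow_left hV 2
      calc 256 * (2 * ff j - j - 2) ^ 2 = (16 * (2 * ff j - j - 2)) ^ 2 := by ring
        _ ≤ _ := this
    have h7 : (9 * n + 53) ^ 2 ≤ 256 * j := by
      have h8 : 128 * (n * n) = 256 * (n * (n - 1) / 2) + 128 * n := by omega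
      nlinarith
    omega

/-- The comparison needed for hub graphs. -/
theorem ff_shift (d j s : ℕ) (hj : j < 2 * d) :
    d * s + min (ff j) d ≤ ff (2 * d * s + j) := by
  rcases Nat.eq_zero_or_pos s with hs | hs
  · subst hs; simp
  rcases Nat.eq_zero_or_pos j with hj0 | hj0
  · subst hj0
    rw [ff_zero]
    have := (ff_edwards (2 * d * s + 0)).1
    have : 2 * (d * s) ≤ 2 * ff (2 * d * s + 0) := by nlinarith
    omega
  obtain ⟨h1, h2⟩ := ff_edwards (2 * d * s + j)
  by_contra hcon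
  push Not at hcon
  set M := 2 * d * s + j with hM
  have h3 := ff_sq j hj0
  have hds : 2 * d * s = 2 * (d * s) := by ring
  have hdle : d ≤ d * s := Nat.le_mul_of_pos_right d hs
  -- D = ff M - d s, w = 2 D - j
  obtain ⟨w, hw⟩ : ∃ w, 2 * ff M = M + w := ⟨2 * ff M - M, by omega⟩
  have hw1 : 2 * ff M - M = w := by omega
  rw [hw1] at h2
  have hw2 : w + 2 ≤ 2 * ff j - j := by omega
  have hw3 : w + j + 2 ≤ 2 * d := by omega
  have hM2 : 2 * d + j ≤ M := by omega
  -- w² ≥ j + 1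
  have h4 : j + 1 ≤ w ^ 2 := by nlinarith
  have h5 : w ^ 2 ≤ (2 * ff j - j - 2) ^ 2 := Nat.pow_le_pow_left (by omega) 2
  omega

end Pool.Agent.H439R2.MC
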