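import Pool.Agent.H439R2.MC.Step
import Pool.Agent.H439R2.MC.Arith

set_option autoImplicit false
set_option linter.unusedSectionVars false

namespace Pool.Agent.H439R2.MC
open Finset

/-- Main theorem: every (integer, symmetric) weight of total at least `m` has a cut of value at
least `f m`, for every `f` with `f 0 = 0` satisfying the two elementary upper bounds. -/
theorem main (f : ℕ → ℕ) (h0 : f 0 = 0)
    (P : ∀ m n k, 2 * m ≤ n * (n - 1) + 2 * k → f m ≤ n ^ 2 / 4 + f k) :
    ∀ (m : ℕ) (V : Type) [Fintype V] [DecidableEq V] (w : V → V → ℤ), Wt w →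
      2 * (m : ℤ) ≤ tot w → HC w (f m) := by
  intro m
  induction m using Nat.strong_induction_on with
  | _ m ih =>
    apply red
    intro V _ _ w hw hpos ht
    rcases Nat.eq_zero_or_pos m with hm0 | hm1
    · subst hm0; rw [h0]; exact HC_zero w
    have hexc := exc_tot w
    have hexc0 : 0 ≤ tot (exc w) :=
      Finset.sum_nonneg fun u _ => Finset.sum_nonneg fun v _ => exc_nonneg w hw hpos u v
    have hm1' : (1:ℤ) ≤ m := by exact_mod_cast hm1
    have hN2 : 2 ≤ Fintype.card V := by
      by_contra hcon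
      push Not at hcon
      have hsub : Subsingleton V := Fintype.card_le_one_iff_subsingleton.1 (by omega)
      have : tot w = 0 := by
        unfold tot
        refine Finset.sum_eq_zero fun u _ => Finset.sum_eq_zero fun v _ => ?_
        rw [Subsingleton.elim u v]; exact hw.2 v
      rw [this] at ht
      linarith
    set N := Fintype.card V with hN
    have hN2' : (2:ℤ) ≤ N := by exact_mod_cast hN2
    have hNN : ((N * (N - 1) : ℕ) : ℤ) = (N:ℤ) ^ 2 - N := by
      rw [Nat.cast_mul, Nat.cast_sub (by omega)]; push_cast; ring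
    have hev := even_tri N
    have hle : N * (N - 1) ≤ 2 * m := by
      have : ((N * (N - 1) : ℕ) : ℤ) ≤ 2 * m := by rw [hNN]; linarith
      exact_mod_cast this
    by_cases hA : 2 * m < N * (N + 1)
    · -- step 2
      have hNN1 : N * (N - 1) = N * N - N := by rw [Nat.mul_sub]; simp
      have hprod : 2 ≤ N * (N - 1) := by
        have : 1 ≤ N - 1 := by omega
        calc 2 ≤ N * 1 := by omega
          _ ≤ N * (N - 1) := Nat.mul_le_mul_left N this
      obtain ⟨k, hk⟩ : ∃ k, 2 * m = N * (N - 1) + 2 * k := ⟨m - N * (N - 1) / 2, by omega⟩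
      have hkm : k < m := by omega
      have htk : tot (exc w) = 2 * (k : ℤ) := by
        have : (2 * (m:ℤ)) = ((N * (N - 1) : ℕ) : ℤ) + 2 * k := by exact_mod_cast hk
        rw [hNN] at this
        linarith
      have hc := ih k hkm V (exc w) (exc_wt w hw) (by rw [htk])
      obtain ⟨x, hx, hE⟩ := step2 w hw hpos _ hc
      apply HC_round hw hx
      refine hE.trans ?_
      have h1 := P m N k (by omega)
      have h2 := P m (N + 1) 0 (by
        have : (N + 1) * (N + 1 - 1) = N * (N + 1) := by simp; ring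
        rw [this]; omega)
      rw [h0] at h2
      have h3 : (4 * f m : ℤ) ≤ (N:ℤ) ^ 2 + 4 * f k := by
        have := Nat.div_mul_le_self (N ^ 2) 4
        have h4 : 4 * f m ≤ N ^ 2 + 4 * f k := by omega
        exact_mod_cast h4
      have h5 : (4 * f m : ℤ) ≤ (N:ℤ) ^ 2 + 2 * N + 1 := by
        have := Nat.div_mul_le_self ((N + 1) ^ 2) 4
        have h4 : 4 * f m ≤ (N + 1) ^ 2 := by omega
        have h6 : (4 * f m : ℤ) ≤ ((N:ℤ) + 1) ^ 2 := by exact_mod_cast h4
        linarith
      have h7 : (2:ℤ) * (((N:ℤ) + 1) / 2) ≥ N := by omega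
      rcases le_total ((f k : ℕ) : ℤ) (((N:ℤ) + 1) / 2) with h8 | h8
      · rw [min_eq_left h8]; linarith
      · rw [min_eq_right h8]; linarith
    · -- step 3
      push Not at hA
      by_contra hno
      have HB : ∀ x, Sg x → tot w - En w x ≤ 4 * (f m : ℤ) - 4 := by
        intro x hx
        by_contra hcon
        push Not at hcon
        apply hno
        refine ⟨x, hx, ?_⟩
        obtain ⟨t, ht'⟩ := dvd4 w hw x hx
        omega
      -- averaging
      obtain ⟨q, hq1, hq⟩ : ∃ q : ℕ, 1 ≤ q ∧ (N = 2 * q ∨ N + 1 = 2 * q) := by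
        rcases Nat.even_or_odd' N with ⟨q, hq | hq⟩
        · exact ⟨q, by omega, Or.inl hq⟩
        · exact ⟨q + 1, by omega, Or.inr (by omega)⟩
      have hT1 : tot w * (2 * q) ≤ (4 * (f m : ℤ) - 4) * (2 * q - 1) := by
        rcases hq with hq | hq
        · exact T1even w hw q hq1 hq _ HB
        · exact T1odd w hw q hq1 hq _ HB
      have hT2 : (m : ℤ) ≤ (2 * f m - m - 2) * ((2 * q - 1 : ℕ) : ℤ) := by
        have : ((2 * q - 1 : ℕ) : ℤ) = 2 * q - 1 := by omega
        rw [this]
        rw [ht] at hT1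
        nlinarith
      have har := arith f h0 P m (2 * q - 1) hm1 (by omega) hT2
      have hq' : ((2 * q - 1 : ℕ) : ℤ) ≤ N := by omega
      obtain ⟨n', U, _, _, R, hn', hRw, hRt, hR⟩ := step3 w hw hpos _ HB
        (by rw [ht]; linarith [har.1]) (by rw [ht]; linarith [har.2])
      rw [← hN] at hn'
      obtain ⟨n, hn⟩ : ∃ n : ℕ, n' = n := ⟨n'.toNat, by omega⟩
      subst hn
      have hn2 : 2 ≤ n := by omega
      have hevn := even_tri n
      have hnn : ((n * (n - 1) : ℕ) : ℤ) = (n:ℤ) ^ 2 - n := by
        rw [Nat.cast_mul, Nat.cast_sub (by omega)]; push_cast; ring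
      have hprod : 2 ≤ n * (n - 1) := by
        have : 1 ≤ n - 1 := by omega
        calc 2 ≤ n * 1 := by omega
          _ ≤ n * (n - 1) := Nat.mul_le_mul_left n this
      obtain ⟨k, hk1, hk2⟩ : ∃ k : ℕ, 2 * m ≤ n * (n - 1) + 2 * k ∧ HC R (f k) := by
        by_cases hcase : n * (n - 1) ≤ 2 * m
        · refine ⟨m - n * (n - 1) / 2, by omega, ?_⟩
          apply ih _ (by omega) U R hRw
          have : (((m - n * (n - 1) / 2 : ℕ)) : ℤ) * 2 = 2 * m - ((n * (n - 1) : ℕ) : ℤ) := by
            omega
          rw [hnn] at this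
          rw [ht] at hRt
          linarith
        · refine ⟨0, by omega, ?_⟩
          rw [h0]; exact HC_zero R
      obtain ⟨x, hx, hE⟩ := hR _ hk2
      apply hno
      apply HC_round hw hx
      refine hE.trans ?_
      have h1 := P m n k hk1
      have h3 : (4 * f m : ℤ) ≤ (n:ℤ) ^ 2 + 4 * f k := by
        have := Nat.div_mul_le_self (n ^ 2) 4
        have h4 : 4 * f m ≤ n ^ 2 + 4 * f k := by omega
        exact_mod_cast h4
      linarith

end Pool.Agent.H439R2.MC
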