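import Pool.Agent.H439R2.MC.TwinFF
import Pool.Agent.H439R2.MC.Explicit
import Pool.Agent.Helper996.MinDegUpper

set_option autoImplicit false
set_option linter.unusedSectionVars false

namespace Pool.Agent.H439R2.MC
open Finset
open scoped Classical
open Pool.Agent.Helper996 Pool.Agent.Helper996.Bisect Pool.Agent.Helper996.Twin
  Pool.Agent.Helper996.Final

/-- Lower bound for graphs with minimum degree at least `d`, with the exact extremal function. -/
theorem lower_ff {V : Type} [Fintype V] [DecidableEq V] (G : SimpleGraph V) (d m t j : ℕ)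
    (hd : 2 ≤ d) (hm : G.edgeSet.ncard = m)
    (hm2 : 400 * d ^ 4 ≤ m) (hdeg : ∀ v, d ≤ (univ.filter (fun u => G.Adj u v)).card)
    (htj : 2 * d * t + j = m + d * (d + 1) / 2) (hj : j < 2 * d) :
    ∃ S : Finset V, S.card ≤ Sᶜ.card ∧ Sᶜ.card ≤ S.card + 1 ∧
      d * t + min (ff j) d ≤ cr G S := by
  have hB := B_one_one G
  rw [hm] at hB
  have hdr : (2 : ℝ) ≤ d := by exact_mod_cast hd
  have hj0 : (0 : ℝ) ≤ j := Nat.cast_nonneg j
  have hjd : (j : ℝ) < 2 * d := by exact_mod_cast hj
  obtain ⟨cc, hcc⟩ := Nat.even_mul_succ_self d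
  have hcc1 : d * (d + 1) / 2 = cc := by omega
  have htjr : 2 * (d : ℝ) * t + j = m + (d : ℝ) * (d + 1) / 2 := by
    rw [hcc1] at htj
    have h2 : 2 * (d : ℝ) * t + j = m + cc := by exact_mod_cast htj
    have h3 : (d : ℝ) * (d + 1) = cc + cc := by exact_mod_cast hcc
    linarith
  -- a bound by d(d+3)/4 is enough
  have hmin : ((min (ff j) d : ℕ) : ℝ) ≤ j / 2 + d / 2 := by
    have h1 : 2 * min (ff j) d ≤ j + d := by
      have := ff_le_self j
      omega
    have h2 : (2 : ℝ) * ((min (ff j) d : ℕ) : ℝ) ≤ j + d := by exact_mod_cast h1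
    linarith
  have enough : ∀ (S : Finset V) (ρ : ℝ), 2 * (m : ℝ) + ρ ≤ 4 * (cr G S : ℝ) →
      (d : ℝ) ^ 2 + 3 * d ≤ ρ → d * t + min (ff j) d ≤ cr G S := by
    intro S ρ h1 h2
    have h3 : (d : ℝ) * t + ((min (ff j) d : ℕ) : ℝ) ≤ (cr G S : ℝ) := by nlinarith
    exact_mod_cast h3
  have hm2r : 400 * (d : ℝ) ^ 4 ≤ m := by exact_mod_cast hm2
  have hd4 : (0 : ℝ) < (d : ℝ) ^ 2 := by positivity
  by_cases hn : 64 * m ≤ (Fintype.card V) ^ 2
  · rcases dichotomy G m hm hn with ⟨S, h1, h2, ρ, h3, h4⟩ | ⟨T, A, w0, hw0, hT, hbig⟩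
    · refine ⟨S, h1, h2, enough S ρ (by
        have := (Int.cast_le (R := ℝ)).mpr h4
        push_cast at this
        exact this) ?_⟩
      have h5 : 2 * (m : ℝ) ≤ (ρ : ℝ) ^ 2 := by exact_mod_cast h3
      have h6 : (5 * (d : ℝ) ^ 2) ^ 2 ≤ (ρ : ℝ) ^ 2 := by nlinarith
      have h7 : 5 * (d : ℝ) ^ 2 ≤ ρ := by
        have := abs_le_of_sq_le_sq h6 (Nat.cast_nonneg ρ)
        exact (le_abs_self _).trans this
      nlinarith
    · have hA : d ≤ A.card := by
        refine (hdeg w0).trans (card_le_card ?_)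
        intro u hu
        rw [mem_filter] at hu
        exact (hT w0 hw0 u).mp hu.2
      have hAr : (d : ℝ) ≤ A.card := by exact_mod_cast hA
      by_cases hcase : A.card = d ∧ Even (Fintype.card V)
      · obtain ⟨hAd, hev⟩ := hcase
        obtain ⟨c, hc⟩ := hev
        have hsg : sg V = 0 := by unfold sg; rw [if_pos ⟨c, hc⟩]
        rcases le_or_gt c t with hct | hct
        · obtain ⟨s, rfl⟩ : ∃ s, t = c + s := ⟨t - c, by omega⟩
          obtain ⟨S, h1, h2, h3⟩ := twin_lower_ff G T A hT hbig (2 * d * s + j) (by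
            rw [hAd, hc, hB]
            have h4 : 2 * ((2 * (d:ℤ) * (c + s) + j)) = 2 * m + d * (d + 1) := by
              rw [hcc1] at htj
              have h5 : 2 * (d:ℤ) * (c + s) + j = m + cc := by exact_mod_cast htj
              have h6 : (d:ℤ) * (d + 1) = cc + cc := by exact_mod_cast hcc
              linarith
            push_cast
            linarith)
          refine ⟨S, h1, h2, ?_⟩
          rw [hAd, hc, hsg] at h3
          push_cast at h3
          have h5 := ff_shift d j s hj
          have h6 : (d:ℤ) * s + ((min (ff j) d : ℕ) : ℤ) ≤ ff (2 * d * s + j) := by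
            exact_mod_cast h5
          have h7 : (d:ℤ) * (c + s) + ((min (ff j) d : ℕ) : ℤ) ≤ (cr G S : ℤ) := by linarith
          exact_mod_cast h7
        · obtain ⟨S, h1, h2, h3⟩ := twin_lower_one G T A hT hbig
          refine ⟨S, h1, h2, ?_⟩
          rw [hAd, hc, hsg] at h3
          push_cast at h3
          have h4 : (cr G S : ℤ) = d * c := by linarith
          have h5 : cr G S = d * c := by exact_mod_cast h4
          have h6 : d * (t + 1) ≤ d * c := Nat.mul_le_mul_left d hct
          have h7 : d * (t + 1) = d * t + d := by ring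
          have h8 := min_le_right (ff j) d
          omega
      · obtain ⟨S, h1, h2, q, r, H, hr0, hq1, hq2, hH, h3⟩ := twin_lower_two G T A hT hbig
        rw [hB] at hH h3
        have h3' : 2 * (m : ℝ) + A.card * (A.card + 1) - 2 * A.card * ((sg V : ℤ) : ℝ) + r
            ≤ 4 * (cr G S : ℝ) := by
          have := (Int.cast_le (R := ℝ)).mpr h3
          push_cast at this
          exact this
        have hr0' : (0 : ℝ) ≤ r := by exact_mod_cast hr0
        rcases eq_or_lt_of_le hA with hAd | hAd
        · have hev : ¬ Even (Fintype.card V) := fun h => hcase ⟨hAd.symm, h⟩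
          rw [← hAd] at h3'
          have hsg : ((sg V : ℤ) : ℝ) = -1 := by unfold sg; rw [if_neg hev]; simp
          rw [hsg] at h3'
          refine ⟨S, h1, h2, enough S ((d : ℝ) ^ 2 + 3 * d) ?_ le_rfl⟩
          nlinarith
        · have hAd' : (d : ℝ) + 1 ≤ A.card := by exact_mod_cast hAd
          have hsg : ((sg V : ℤ) : ℝ) ≤ 0 := by
            rcases sg_cases V with h | h <;> rw [h] <;> norm_num
          refine ⟨S, h1, h2, enough S ((d : ℝ) ^ 2 + 3 * d) ?_ le_rfl⟩
          have h8 : 0 ≤ -(2 * (A.card : ℝ) * ((sg V : ℤ) : ℝ)) := by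
            have : (0 : ℝ) ≤ A.card := Nat.cast_nonneg _
            nlinarith
          nlinarith
  · push Not at hn
    obtain ⟨U, hU, hI⟩ := exists_max_matching G
    obtain ⟨S, h1, h2, h3⟩ := bisect_of_good hU
    have hk := MinDeg.edges_le G U hI
    rw [hm] at hk
    refine ⟨S, h1, h2, enough S (U.card : ℝ) ?_ ?_⟩
    · rw [hB] at h3
      have h4 : 2 * (m : ℤ) + U.card ≤ 4 * (cr G S : ℤ) := h3
      have := (Int.cast_le (R := ℝ)).mpr h4
      push_cast at this
      exact this
    · have hkr : (m : ℝ) ≤ U.card * Fintype.card V := by exact_mod_cast hk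
      have hnr : (Fintype.card V : ℝ) ^ 2 < 64 * m := by exact_mod_cast hn
      have hmpos : (0 : ℝ) < m := by
        have : (0 : ℝ) < 400 * (d : ℝ) ^ 4 := by positivity
        linarith
      set k : ℝ := (U.card : ℝ) with hkdef
      set n : ℝ := (Fintype.card V : ℝ) with hndef
      have hk0 : 0 ≤ k := Nat.cast_nonneg _
      have h5 : (m : ℝ) ^ 2 ≤ k ^ 2 * (64 * m) := by
        have h6 : (m : ℝ) ^ 2 ≤ (k * n) ^ 2 := by
          have := mul_self_le_mul_self hmpos.le hkr
          nlinarith
        have h7 : (k * n) ^ 2 = k ^ 2 * n ^ 2 := by ring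
        rw [h7] at h6
        exact h6.trans (mul_le_mul_of_nonneg_left hnr.le (sq_nonneg k))
      have h6 : (m : ℝ) ≤ 64 * k ^ 2 := by
        have : m * (m : ℝ) ≤ (64 * k ^ 2) * m := by nlinarith
        exact le_of_mul_le_mul_right this hmpos
      have h7 : (5 / 2 * (d : ℝ) ^ 2) ^ 2 ≤ k ^ 2 := by nlinarith
      have h8 : 5 / 2 * (d : ℝ) ^ 2 ≤ k := by
        have := abs_le_of_sq_le_sq h7 hk0
        exact (le_abs_self _).trans this
      clear_value k n
      clear h7 h6 h5 hnr hkr hm2r htjr hmin hI hU h3 hk enough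
      nlinarith

/-- a graph realising `ff j` without isolated vertices. -/
theorem small_graph (j : ℕ) : ∃ (W : Type) (_ : Fintype W) (_ : DecidableEq W)
    (H : SimpleGraph W), Fintype.card W ≤ 2 * j ∧ H.edgeSet.ncard = j ∧
    ∀ S : Finset W, cr H S ≤ ff j := by
  obtain ⟨V, _, _, w, hw, h01, ht, hc⟩ := ff_spec j
  let p : V → Prop := fun v => ∃ u, w v u ≠ 0
  let H : SimpleGraph {v // p v} :=
    { Adj := fun u v => w u v = 1
      symm := ⟨fun u v h => by rw [hw.1]; exact h⟩
      loopless := ⟨fun u h => by rw [hw.2] at h; norm_num at h⟩ }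
  have hz : ∀ v, ¬ p v → ∀ u, w v u = 0 := by
    intro v hv u
    by_contra h
    exact hv ⟨u, h⟩
  have hz' : ∀ v, ¬ p v → ∀ u, w u v = 0 := fun v hv u => by rw [hw.1]; exact hz v hv u
  have hadj : ∀ u v : {v // p v}, (if H.Adj u v then (1:ℤ) else 0) = w u v := by
    intro u v
    rcases h01 u v with h | h
    · have : ¬ H.Adj u v := by intro h'; change w u v = 1 at h'; rw [h] at h'; norm_num at h'
      rw [if_neg this, h]
    · have : H.Adj u v := h
      rw [if_pos this, h]
  have hBw : ∀ x : V → ℤ, B H (fun v => x v) (fun v => x v) = En w x := by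
    intro x
    unfold B En
    rw [sum_sub_of_zero p (fun u => ∑ v, w u v * (x u * x v)) (fun v hv => by simp [hz v hv])]
    refine Finset.sum_congr rfl fun u _ => ?_
    rw [sum_sub_of_zero p (fun v => w u v * (x u * x v)) (fun v hv => by simp [hz' v hv])]
    refine Finset.sum_congr rfl fun v _ => ?_
    rw [← hadj u v]
    split_ifs <;> simp
  have hB1 : B H 1 1 = 2 * j := by
    have h1 := hBw (fun _ => 1)
    have e2 : En w (fun _ => 1) = tot w := by unfold En tot; simp
    rw [e2, ht] at h1
    exact h1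
  refine ⟨{v // p v}, inferInstance, inferInstance, H, ?_, ?_, ?_⟩
  · have h1 : (Fintype.card {v // p v} : ℤ) ≤ tot w := by
      have : tot w = ∑ v : {v // p v}, ∑ u, w v u := by
        unfold tot
        exact sum_sub_of_zero p (fun v => ∑ u, w v u) (fun v hv => by simp [hz v hv])
      rw [this]
      have h2 : (Fintype.card {v // p v} : ℤ) = ∑ v : {v // p v}, (1:ℤ) := by simp
      rw [h2]
      refine Finset.sum_le_sum fun v _ => ?_
      obtain ⟨u, hu⟩ := v.2
      have h3 : w v u = 1 := (h01 v u).resolve_left hu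
      rw [← h3]
      exact Finset.single_le_sum (f := fun u => w v u)
        (fun a _ => by rcases h01 v a with h | h <;> simp [h]) (Finset.mem_univ u)
    rw [ht] at h1
    exact_mod_cast h1
  · have h1 := B_one_one H
    rw [hB1] at h1
    have : (j : ℤ) = H.edgeSet.ncard := by linarith
    exact_mod_cast this.symm
  · intro S
    have h1 := cr_formula H S
    let x : V → ℤ := fun v => if h : p v then (ind S - ind Sᶜ : {v // p v} → ℤ) ⟨v, h⟩ else 1
    have hx : Sg x := by
      intro v
      by_cases hv : p v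
      · simp only [x, dif_pos hv]
        by_cases hS : (⟨v, hv⟩ : {v // p v}) ∈ S <;> simp [ind, hS]
      · simp [x, hv]
    have hxv : (fun v : {v // p v} => x v) = ind S - ind Sᶜ := by
      funext v
      simp only [x, dif_pos v.2]
    have h2 := hBw x
    rw [hxv] at h2
    rw [h2, hB1, ← ht] at h1
    have h3 := hc x hx
    have h4 : (cr H S : ℤ) ≤ ff j := by linarith
    exact_mod_cast h4

end Pool.Agent.H439R2.MC
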