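import Mathlib

set_option autoImplicit false
set_option linter.unusedSectionVars false

namespace Pool.Agent.H439R2.MC
open Finset

variable {Y : Type} [Fintype Y]

/-- valid pair systems -/
def VP (Rel : Y → Y → Prop) (k : ℕ) (f : Fin k ⊕ Fin k → Y) : Prop :=
  Function.Injective f ∧ ∀ l, Rel (f (Sum.inl l)) (f (Sum.inr l))

theorem VP.extend {Rel : Y → Y → Prop} {k : ℕ} {f : Fin k ⊕ Fin k → Y} (hf : VP Rel k f)
    {z z' : Y} (hz : z ∉ Set.range f) (hz' : z' ∉ Set.range f) (hne : z ≠ z') (hR : Rel z z') :
    ∃ f', VP Rel (k + 1) f' := by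
  classical
  let F : Option (Fin k) ⊕ Option (Fin k) → Y := Sum.elim
    (fun o => o.elim z (fun l => f (Sum.inl l))) (fun o => o.elim z' (fun l => f (Sum.inr l)))
  have hz1 : ∀ a, f a ≠ z := fun a h => hz ⟨a, h⟩
  have hz2 : ∀ a, f a ≠ z' := fun a h => hz' ⟨a, h⟩
  have hF : Function.Injective F := by
    rintro ((_ | a) | (_ | a)) ((_ | b) | (_ | b)) hab
    all_goals simp only [F, Sum.elim_inl, Sum.elim_inr, Option.elim] at hab
    · rfl
    · exact absurd hab.symm (hz1 _)
    · exact absurd hab hne
    · exact absurd hab.symm (hz1 _)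
    · exact absurd hab (hz1 _)
    · have := hf.1 hab; simp at this; rw [this]
    · exact absurd hab (hz2 _)
    · have := hf.1 hab; simp at this
    · exact absurd hab.symm hne
    · exact absurd hab.symm (hz2 _)
    · rfl
    · exact absurd hab.symm (hz2 _)
    · exact absurd hab (hz1 _)
    · have := hf.1 hab; simp at this
    · exact absurd hab (hz2 _)
    · have := hf.1 hab; simp at this; rw [this]
  refine ⟨fun s => F (Sum.map (finSuccEquiv k) (finSuccEquiv k) s), ?_, ?_⟩
  · exact hF.comp (Sum.map_injective.2 ⟨(finSuccEquiv k).injective, (finSuccEquiv k).injective⟩)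
  · intro l
    simp only [Sum.map_inl, Sum.map_inr]
    rcases finSuccEquiv k l with _ | l
    · exact hR
    · exact hf.2 l

theorem VP.swap [DecidableEq Y] {Rel : Y → Y → Prop} {k : ℕ} {f : Fin k ⊕ Fin k → Y}
    (hf : VP Rel k f) (l0 : Fin k) {z : Y} (hz : z ∉ Set.range f)
    (hR : Rel (f (Sum.inl l0)) z) :
    VP Rel k (Function.update f (Sum.inr l0) z) := by
  classical
  have hz1 : ∀ a, f a ≠ z := fun a h => hz ⟨a, h⟩
  constructor
  · intro a b hab
    by_cases ha : a = Sum.inr l0
    · by_cases hb : b = Sum.inr l0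
      · rw [ha, hb]
      · rw [ha, Function.update_self, Function.update_of_ne hb] at hab
        exact absurd hab.symm (hz1 _)
    · by_cases hb : b = Sum.inr l0
      · rw [hb, Function.update_self, Function.update_of_ne ha] at hab
        exact absurd hab (hz1 _)
      · rw [Function.update_of_ne ha, Function.update_of_ne hb] at hab
        exact hf.1 hab
  · intro l
    rw [Function.update_of_ne (by simp)]
    by_cases hl : l = l0
    · subst hl; rw [Function.update_self]; exact hR
    · rw [Function.update_of_ne (by simpa using hl)]; exact hf.2 l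

theorem exists_pairs (Rel : Y → Y → Prop) (wt : Y → Y → ℤ) :
    ∃ (k : ℕ) (f : Fin k ⊕ Fin k → Y), Function.Injective f ∧
      (∀ l, Rel (f (Sum.inl l)) (f (Sum.inr l))) ∧
      (∀ z z', z ∉ Set.range f → z' ∉ Set.range f → z ≠ z' → ¬ Rel z z') ∧
      (∀ l z z', z ∉ Set.range f → z' ∉ Set.range f → z ≠ z' → Rel (f (Sum.inl l)) z →
        ¬ Rel (f (Sum.inr l)) z') ∧
      (∀ l z, z ∉ Set.range f → Rel (f (Sum.inl l)) z →
        wt (f (Sum.inl l)) z ≤ wt (f (Sum.inl l)) (f (Sum.inr l))) := by
  classical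
  let S : Finset ℕ := (Finset.range (Fintype.card Y + 1)).filter (fun k => ∃ f, VP Rel k f)
  have hS : S.Nonempty := by
    refine ⟨0, ?_⟩
    simp only [S, Finset.mem_filter, Finset.mem_range, Nat.zero_lt_succ, true_and]
    refine ⟨fun s => (s.elim Fin.elim0 Fin.elim0 : Y), ?_, fun l => l.elim0⟩
    rintro (a | a) <;> exact a.elim0
  obtain ⟨k, hkS, hkmax⟩ := Finset.exists_max_image S id hS
  have hmax : ∀ k', (∃ f, VP Rel k' f) → k' ≤ k := by
    rintro k' ⟨f, hf⟩
    apply hkmax k'
    simp only [S, Finset.mem_filter, Finset.mem_range]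
    refine ⟨?_, f, hf⟩
    have h1 := Fintype.card_le_of_injective f hf.1
    simp at h1
    omega
  have hex : ∃ f, VP Rel k f := (Finset.mem_filter.1 hkS).2
  let F : Finset (Fin k ⊕ Fin k → Y) := Finset.univ.filter (fun f => VP Rel k f)
  have hF : F.Nonempty := by
    obtain ⟨f, hf⟩ := hex
    exact ⟨f, by simp [F, hf]⟩
  obtain ⟨f, hfF, hfmax⟩ := Finset.exists_max_image F
    (fun f => ∑ l, wt (f (Sum.inl l)) (f (Sum.inr l))) hF
  have hf : VP Rel k f := (Finset.mem_filter.1 hfF).2
  refine ⟨k, f, hf.1, hf.2, ?_, ?_, ?_⟩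
  · intro z z' hz hz' hne hR
    have := hmax _ (hf.extend hz hz' hne hR)
    omega
  · intro l z z' hz hz' hne hR hR'
    have h1 := hf.swap l hz hR
    have h2 : f (Sum.inr l) ∉ Set.range (Function.update f (Sum.inr l) z) := by
      rintro ⟨a, ha⟩
      by_cases h : a = Sum.inr l
      · subst h; rw [Function.update_self] at ha; exact hz ⟨_, ha.symm⟩
      · rw [Function.update_of_ne h] at ha; exact h (hf.1 ha)
    have h3 : z' ∉ Set.range (Function.update f (Sum.inr l) z) := by
      rintro ⟨a, ha⟩
      by_cases h : a = Sum.inr l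
      · subst h; rw [Function.update_self] at ha; exact hne ha
      · rw [Function.update_of_ne h] at ha; exact hz' ⟨_, ha⟩
    have h4 : f (Sum.inr l) ≠ z' := fun h => hz' ⟨_, h⟩
    have := hmax _ (h1.extend h2 h3 h4 hR')
    omega
  · intro l z hz hR
    have h1 := hf.swap l hz hR
    have h2 := hfmax _ (by simp only [F, Finset.mem_filter, Finset.mem_univ, true_and]; exact h1)
    have h3 : ∀ l', wt (Function.update f (Sum.inr l) z (Sum.inl l'))
        (Function.update f (Sum.inr l) z (Sum.inr l'))
        = wt (f (Sum.inl l')) (f (Sum.inr l')) +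
          (if l' = l then wt (f (Sum.inl l)) z - wt (f (Sum.inl l)) (f (Sum.inr l)) else 0) := by
      intro l'
      rw [Function.update_of_ne (by simp)]
      by_cases h : l' = l
      · subst h; rw [Function.update_self]; simp
      · rw [Function.update_of_ne (by simpa using h)]; simp [h]
    simp only [h3, Finset.sum_add_distrib] at h2
    simp at h2
    linarith

/-- the equivalence attached to an injection -/
theorem exists_equiv_of_inj {A : Type} (f : A → Y) (hf : Function.Injective f) :
    ∃ (Z : Type) (_ : Fintype Z) (e : A ⊕ Z ≃ Y), (∀ a, e (Sum.inl a) = f a) ∧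
      ∀ z, e (Sum.inr z) ∉ Set.range f := by
  classical
  refine ⟨((Set.range f)ᶜ : Set Y), inferInstance,
    (Equiv.sumCongr (Equiv.ofInjective f hf) (Equiv.refl _)).trans
    (Equiv.Set.sumCompl (Set.range f)), ?_, ?_⟩
  · intro a; simp
  · intro z
    have : ((Equiv.sumCongr (Equiv.ofInjective f hf) (Equiv.refl _)).trans
      (Equiv.Set.sumCompl (Set.range f))) (Sum.inr z) = z := by simp
    rw [this]
    exact z.2

end Pool.Agent.H439R2.MC
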