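import Pool.Agent.H439R2.MC.Basic

set_option autoImplicit false
set_option linter.unusedSectionVars false

namespace Pool.Agent.H439R2.MC
open Finset

/-- merging the vertex `none` into `some u` -/
def mrg {U : Type} [DecidableEq U] (w : Option U → Option U → ℤ) (u : U) : U → U → ℤ :=
  fun x y => w (some x) (some y) + (if x = u then w none (some y) else 0)
    + (if y = u then w (some x) none else 0)
    - (if x = u then (if y = u then 2 * w none (some u) else 0) else 0)

theorem mrg_wt {U : Type} [DecidableEq U] (w : Option U → Option U → ℤ) (hw : Wt w) (u : U) :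
    Wt (mrg w u) := by
  constructor
  · intro x y
    unfold mrg
    rw [hw.1 (some x) (some y), hw.1 (some x) none, hw.1 none (some y)]
    split_ifs <;> ring
  · intro x
    unfold mrg
    rw [hw.2, hw.1 (some x) none]
    split_ifs with h
    · subst h; ring
    · ring

theorem mrg_tot {U : Type} [Fintype U] [DecidableEq U] (w : Option U → Option U → ℤ) (hw : Wt w)
    (u : U) : tot (mrg w u) = tot w - 2 * w none (some u) := by
  unfold tot mrg
  simp only [Finset.sum_add_distrib, Finset.sum_sub_distrib, Fintype.sum_option]
  have h1 : ∑ x : U, ∑ y : U, (if x = u then w none (some y) else 0) = ∑ y, w none (some y) := by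
    rw [Finset.sum_eq_single u]
    · simp
    · intro b _ hb; simp [hb]
    · intro h; exact absurd (Finset.mem_univ _) h
  have h2 : ∑ x : U, ∑ y : U, (if y = u then w (some x) none else 0) = ∑ y, w (some y) none := by
    refine Finset.sum_congr rfl fun x _ => ?_
    simp
  have h3 : ∑ x : U, ∑ y : U, (if x = u then (if y = u then 2 * w none (some u) else 0) else 0)
      = 2 * w none (some u) := by
    rw [Finset.sum_eq_single u]
    · simp
    · intro b _ hb; simp [hb]
    · intro h; exact absurd (Finset.mem_univ _) h
  rw [h1, h2, h3, hw.2 none]
  ring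

theorem mrg_En {U : Type} [Fintype U] [DecidableEq U] (w : Option U → Option U → ℤ) (hw : Wt w)
    (u : U) (x : U → ℤ) (hx : Sg x) :
    En w (fun z => z.elim (x u) x) = En (mrg w u) x + 2 * w none (some u) := by
  unfold En mrg
  simp only [Fintype.sum_option, Option.elim, sub_mul, add_mul, Finset.sum_add_distrib,
    Finset.sum_sub_distrib]
  have h1 : ∑ a : U, ∑ y : U, (if a = u then w none (some y) else 0) * (x a * x y)
      = ∑ y, w none (some y) * (x u * x y) := by
    rw [Finset.sum_eq_single u]
    · simp
    · intro b _ hb; simp [hb]
    · intro h; exact absurd (Finset.mem_univ _) h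
  have h2 : ∑ a : U, ∑ y : U, (if y = u then w (some a) none else 0) * (x a * x y)
      = ∑ y, w (some y) none * (x y * x u) := by
    refine Finset.sum_congr rfl fun a _ => ?_
    rw [Finset.sum_eq_single u]
    · simp
    · intro b _ hb; simp [hb]
    · intro h; exact absurd (Finset.mem_univ _) h
  have h3 : ∑ a : U, ∑ y : U,
      (if a = u then (if y = u then 2 * w none (some u) else 0) else 0) * (x a * x y)
      = 2 * w none (some u) := by
    rw [Finset.sum_eq_single u]
    · rw [Finset.sum_eq_single u]
      · simp [hx.sq u]
      · intro b _ hb; simp [hb]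
      · intro h; exact absurd (Finset.mem_univ _) h
    · intro b _ hb; simp [hb]
    · intro h; exact absurd (Finset.mem_univ _) h
  rw [h1, h2, h3, hw.2 none]
  ring

theorem mrg_HC {U : Type} [Fintype U] [DecidableEq U] (w : Option U → Option U → ℤ) (hw : Wt w)
    (u : U) (c : ℤ) (h : HC (mrg w u) c) : HC w c := by
  obtain ⟨x, hx, hE⟩ := h
  refine ⟨fun z => z.elim (x u) x, ?_, ?_⟩
  · intro z
    cases z with
    | none => exact hx u
    | some z => exact hx z
  · rw [mrg_En w hw u x hx]
    rw [mrg_tot w hw u] at hE
    linarith

/-- lowering one edge -/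
def low {V : Type} [DecidableEq V] (w : V → V → ℤ) (a b : V) : V → V → ℤ :=
  fun x y => w x y - (if x = a then (if y = b then 1 else 0) else 0)
    - (if x = b then (if y = a then 1 else 0) else 0)

theorem low_wt {V : Type} [DecidableEq V] (w : V → V → ℤ) (hw : Wt w) (a b : V) (hab : a ≠ b) :
    Wt (low w a b) := by
  constructor
  · intro x y
    unfold low
    rw [hw.1 x y]
    split_ifs <;> ring
  · intro x
    unfold low
    rw [hw.2]
    split_ifs <;> simp_all

theorem low_tot {V : Type} [Fintype V] [DecidableEq V] (w : V → V → ℤ) (a b : V) :
    tot (low w a b) = tot w - 2 := by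
  unfold tot low
  simp only [Finset.sum_sub_distrib]
  have h : ∀ a b : V, ∑ x : V, ∑ y : V, (if x = a then (if y = b then (1:ℤ) else 0) else 0) = 1 := by
    intro a b
    rw [Finset.sum_eq_single a]
    · simp
    · intro b _ hb; simp [hb]
    · intro h; exact absurd (Finset.mem_univ _) h
  rw [h, h]; ring

theorem low_En {V : Type} [Fintype V] [DecidableEq V] (w : V → V → ℤ) (a b : V) (x : V → ℤ) :
    En (low w a b) x = En w x - 2 * (x a * x b) := by
  unfold En low
  simp only [sub_mul, Finset.sum_sub_distrib]
  have h : ∀ a b : V, ∑ u : V, ∑ y : V,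
      (if u = a then (if y = b then (1:ℤ) else 0) else 0) * (x u * x y) = x a * x b := by
    intro a b
    rw [Finset.sum_eq_single a]
    · rw [Finset.sum_eq_single b]
      · simp
      · intro b _ hb; simp [hb]
      · intro h; exact absurd (Finset.mem_univ _) h
    · intro b _ hb; simp [hb]
    · intro h; exact absurd (Finset.mem_univ _) h
  rw [h, h]; ring

theorem low_HC {V : Type} [Fintype V] [DecidableEq V] (w : V → V → ℤ) (a b : V) (c : ℤ)
    (h : HC (low w a b) c) : HC w c := by
  obtain ⟨x, hx, hE⟩ := h
  refine ⟨x, hx, ?_⟩
  rw [low_En, low_tot] at hE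
  rcases hx a with h1 | h1 <;> rcases hx b with h2 | h2 <;> rw [h1, h2] at hE <;> linarith

/-- Reduction to weights which are positive off the diagonal with exact total. -/
theorem red (k : ℕ) (c : ℤ)
    (H : ∀ (V : Type) [Fintype V] [DecidableEq V] (w : V → V → ℤ), Wt w →
      (∀ u v, u ≠ v → 1 ≤ w u v) → tot w = 2 * k → HC w c) :
    ∀ (V : Type) [Fintype V] [DecidableEq V] (w : V → V → ℤ), Wt w → 2 * (k : ℤ) ≤ tot w →
      HC w c := by
  have main : ∀ n : ℕ, ∀ (V : Type) [Fintype V] [DecidableEq V] (w : V → V → ℤ),
      Fintype.card V = n → Wt w → 2 * (k : ℤ) ≤ tot w → HC w c := by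
    intro n
    induction n using Nat.strong_induction_on with
    | _ n ih =>
      have inner : ∀ d : ℕ, ∀ (V : Type) [Fintype V] [DecidableEq V] (w : V → V → ℤ),
          Fintype.card V = n → Wt w → tot w = 2 * (k : ℤ) + 2 * d → HC w c := by
        intro d
        induction d with
        | zero =>
          intro V _ _ w hc hw ht
          by_cases hpos : ∀ u v, u ≠ v → 1 ≤ w u v
          · exact H V w hw hpos (by rw [ht]; simp)
          · push Not at hpos
            obtain ⟨u, v, huv, hlt⟩ := hpos
            let e := Equiv.optionSubtypeNe v
            have hw' : Wt (fun a b => w (e a) (e b)) := Wt_equiv e w hw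
            have hen : e none = v := by simp [e]
            have heu : e (some ⟨u, huv⟩) = u := by simp [e]
            apply HC_equiv e
            apply mrg_HC _ hw' ⟨u, huv⟩
            refine ih (Fintype.card {x : V // x ≠ v}) ?_ _ _ rfl (mrg_wt _ hw' _) ?_
            · rw [← hc]
              exact Fintype.card_subtype_lt (x := v) (by simp)
            · rw [mrg_tot _ hw', tot_equiv e w]
              simp only [hen, heu]
              rw [hw.1 v u, ht]
              push_cast
              linarith
        | succ d ihd =>
          intro V _ _ w hc hw ht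
          by_cases hpos : ∀ u v, u ≠ v → 1 ≤ w u v
          · by_cases hex : ∃ a b : V, a ≠ b
            · obtain ⟨a, b, hab⟩ := hex
              apply low_HC w a b
              refine ihd V _ hc (low_wt w hw a b hab) ?_
              rw [low_tot, ht]; push_cast; ring
            · push Not at hex
              have : tot w = 0 := by
                unfold tot
                refine Finset.sum_eq_zero fun u _ => Finset.sum_eq_zero fun v _ => ?_
                rw [hex u v]; exact hw.2 v
              rw [this] at ht
              push_cast at ht
              exfalso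
              have h1 : (0:ℤ) ≤ (k:ℤ) := Int.natCast_nonneg k
              have h2 : (0:ℤ) ≤ (d:ℤ) := Int.natCast_nonneg d
              linarith
          · push Not at hpos
            obtain ⟨u, v, huv, hlt⟩ := hpos
            let e := Equiv.optionSubtypeNe v
            have hw' : Wt (fun a b => w (e a) (e b)) := Wt_equiv e w hw
            have hen : e none = v := by simp [e]
            have heu : e (some ⟨u, huv⟩) = u := by simp [e]
            apply HC_equiv e
            apply mrg_HC _ hw' ⟨u, huv⟩
            refine ih (Fintype.card {x : V // x ≠ v}) ?_ _ _ rfl (mrg_wt _ hw' _) ?_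
            · rw [← hc]
              exact Fintype.card_subtype_lt (x := v) (by simp)
            · rw [mrg_tot _ hw', tot_equiv e w]
              simp only [hen, heu]
              rw [hw.1 v u, ht]
              push_cast
              have h2 : (0:ℤ) ≤ (d:ℤ) := Int.natCast_nonneg d
              linarith
      intro V _ _ w hc hw ht
      obtain ⟨t, htt⟩ := even_tot w hw
      have : ∃ d : ℕ, tot w = 2 * (k : ℤ) + 2 * d := by
        refine ⟨(t - k).toNat, ?_⟩
        rw [Int.toNat_of_nonneg (by omega)]
        omega
      obtain ⟨d, hd⟩ := this
      exact inner d V w hc hw hd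
  intro V _ _ w hw ht
  exact main _ V w rfl hw ht

end Pool.Agent.H439R2.MC
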