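import Pool.Agent.H439R2.MC.Main

set_option autoImplicit false
set_option linter.unusedSectionVars false

namespace Pool.Agent.H439R2.MC
open Finset

/-- there is a 0/1 weight with `m` edges all of whose cuts are at most `c` -/
def SG (m c : ℕ) : Prop :=
  ∃ (V : Type) (_ : Fintype V) (_ : DecidableEq V) (w : V → V → ℤ), Wt w ∧
    (∀ u v, w u v = 0 ∨ w u v = 1) ∧ tot w = 2 * m ∧ ∀ x, Sg x → tot w - En w x ≤ 4 * c

theorem SG_pred (m c : ℕ) (h : SG (m + 1) c) : SG m c := by
  obtain ⟨V, _, _, w, hw, h01, ht, hc⟩ := h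
  obtain ⟨a, b, hab⟩ : ∃ a b, w a b ≠ 0 := by
    by_contra hcon
    push Not at hcon
    have : tot w = 0 := Finset.sum_eq_zero fun u _ => Finset.sum_eq_zero fun v _ => hcon u v
    rw [this] at ht
    push_cast at ht
    have : (0:ℤ) ≤ m := Int.natCast_nonneg _
    linarith
  have hne : a ≠ b := by rintro rfl; exact hab (hw.2 a)
  have hab1 : w a b = 1 := (h01 a b).resolve_left hab
  refine ⟨V, inferInstance, inferInstance, low w a b, low_wt w hw a b hne, ?_, ?_, ?_⟩
  · intro u v
    unfold low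
    by_cases h1 : u = a
    · subst h1
      by_cases h2 : v = b
      · subst h2; simp [hab1, hne]
      · simpa [h2, hne] using h01 u v
    · by_cases h3 : u = b
      · subst h3
        by_cases h4 : v = a
        · subst h4; simp [h1, hw.1 u v, hab1]
        · simpa [h1, h4] using h01 u v
      · simpa [h1, h3] using h01 u v
  · rw [low_tot, ht]; push_cast; ring
  · intro x hx
    have := hc x hx
    rw [low_tot, low_En]
    rcases hx a with h1 | h1 <;> rcases hx b with h2 | h2 <;> rw [h1, h2] <;> linarith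

theorem SG_mono (m m' c : ℕ) (hm : m ≤ m') (h : SG m' c) : SG m c := by
  induction m', hm using Nat.le_induction with
  | base => exact h
  | succ n _ ih => exact ih (SG_pred n c h)

theorem SG_add (a b c d : ℕ) (h1 : SG a c) (h2 : SG b d) : SG (a + b) (c + d) := by
  obtain ⟨V, _, _, w, hw, h01, ht, hc⟩ := h1
  obtain ⟨U, _, _, w', hw', h01', ht', hc'⟩ := h2
  let W : V ⊕ U → V ⊕ U → ℤ := fun p q => match p, q with
    | Sum.inl p, Sum.inl q => w p q
    | Sum.inr p, Sum.inr q => w' p q
    | _, _ => 0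
  have hWt : tot W = tot w + tot w' := by
    unfold tot; simp [Fintype.sum_sum_type, W]
  have hWE : ∀ x, En W x = En w (fun v => x (Sum.inl v)) + En w' (fun v => x (Sum.inr v)) := by
    intro x; unfold En; simp [Fintype.sum_sum_type, W]
  refine ⟨V ⊕ U, inferInstance, inferInstance, W, ⟨?_, ?_⟩, ?_, ?_, ?_⟩
  · rintro (p | p) (q | q)
    · exact hw.1 p q
    · rfl
    · rfl
    · exact hw'.1 p q
  · rintro (p | p)
    · exact hw.2 p
    · exact hw'.2 p
  · rintro (p | p) (q | q)
    · exact h01 p q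
    · exact Or.inl rfl
    · exact Or.inl rfl
    · exact h01' p q
  · rw [hWt, ht, ht']; push_cast; ring
  · intro x hx
    rw [hWt, hWE]
    have e1 := hc (fun v => x (Sum.inl v)) (fun v => hx _)
    have e2 := hc' (fun v => x (Sum.inr v)) (fun v => hx _)
    push_cast
    linarith

theorem SG_complete (n : ℕ) : SG (n * (n - 1) / 2) (n ^ 2 / 4) := by
  let w : Fin n → Fin n → ℤ := fun u v => if u = v then 0 else 1
  have hw : Wt w := by
    constructor
    · intro u v; by_cases h : u = v
      · simp [w, h]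
      · simp [w, h, Ne.symm h]
    · intro u; simp [w]
  have hex : exc w = fun _ _ => 0 := by
    funext u v; unfold exc; by_cases h : u = v <;> simp [w, h]
  have ht : tot w = (n:ℤ) ^ 2 - n := by
    rw [exc_tot, hex]; unfold tot; simp
  refine ⟨Fin n, inferInstance, inferInstance, w, hw, ?_, ?_, ?_⟩
  · intro u v; by_cases h : u = v <;> simp [w, h]
  · rw [ht]
    have h1 := even_tri n
    have h2 : ((n * (n - 1) : ℕ) : ℤ) = (n:ℤ) ^ 2 - n := by
      rcases Nat.eq_zero_or_pos n with h | h
      · subst h; simp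
      · rw [Nat.cast_mul, Nat.cast_sub (by omega)]; push_cast; ring
    rw [← h2]
    generalize n * (n - 1) = q at *
    omega
  · intro x hx
    obtain ⟨t, ht4⟩ := dvd4 w hw x hx
    have h1 : tot w - En w x ≤ (n:ℤ) ^ 2 := by
      rw [exc_En w x hx, ht, hex]
      have : En (fun _ _ : Fin n => (0:ℤ)) x = 0 := by unfold En; simp
      rw [this, Fintype.card_fin]
      nlinarith [sq_nonneg (∑ v, x v)]
    have h2 : (n:ℤ) ^ 2 = ((n ^ 2 : ℕ) : ℤ) := by push_cast; ring
    rw [h2] at h1
    generalize n ^ 2 = q at *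
    omega

theorem SG_exists (m : ℕ) : ∃ c, SG m c := by
  refine ⟨_, SG_mono m _ _ ?_ (SG_complete (m + 2))⟩
  have h1 := even_tri (m + 2)
  have h2 : (m + 2) * (m + 2 - 1) = (m + 2) * (m + 1) := rfl
  nlinarith

/-- the extremal function -/
noncomputable def ff (m : ℕ) : ℕ := sInf {c | SG m c}

theorem ff_spec (m : ℕ) : SG m (ff m) := Nat.sInf_mem (SG_exists m)

theorem ff_le {m c : ℕ} (h : SG m c) : ff m ≤ c := Nat.sInf_le h

theorem ff_zero : ff 0 = 0 := by
  have := ff_le (SG_complete 0)
  simpa using this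

theorem ff_P (m n k : ℕ) (h : 2 * m ≤ n * (n - 1) + 2 * k) : ff m ≤ n ^ 2 / 4 + ff k := by
  apply ff_le
  apply SG_mono m (n * (n - 1) / 2 + k)
  · have := even_tri n; omega
  · exact SG_add _ _ _ _ (SG_complete n) (ff_spec k)

theorem main_ff (m : ℕ) (V : Type) [Fintype V] [DecidableEq V] (w : V → V → ℤ) (hw : Wt w)
    (ht : 2 * (m : ℤ) ≤ tot w) : HC w (ff m) := main ff ff_zero ff_P m V w hw ht

/-- sign vector of a set -/
def sgs {V : Type} [DecidableEq V] (S : Finset V) : V → ℤ := fun v => if v ∈ S then 1 else -1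

theorem sgs_sg {V : Type} [DecidableEq V] (S : Finset V) : Sg (sgs S) := by
  intro v; unfold sgs; split_ifs <;> simp

theorem cutS {V : Type} [Fintype V] [DecidableEq V] (w : V → V → ℤ) (hw : Wt w) (S : Finset V) :
    tot w - En w (sgs S) = 4 * ∑ p ∈ S ×ˢ Sᶜ, w p.1 p.2 := by
  rw [cut_formula w hw _ (sgs_sg S), Finset.sum_product]
  congr 1
  have h1 : ∀ u, (if sgs S u = 1 then ∑ v, (if sgs S v = -1 then w u v else 0) else 0)
      = if u ∈ S then ∑ v ∈ Sᶜ, w u v else 0 := by
    intro u
    unfold sgs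
    by_cases hu : u ∈ S
    · simp only [hu, if_true]
      rw [← Finset.sum_filter]
      apply Finset.sum_congr _ (fun _ _ => rfl)
      ext v
      by_cases hv : v ∈ S <;> simp [hv]
    · simp [hu]
  simp only [h1]
  rw [← Finset.sum_filter]
  apply Finset.sum_congr _ (fun _ _ => rfl)
  ext v; simp

theorem sgs_of {V : Type} [Fintype V] [DecidableEq V] (x : V → ℤ) (hx : Sg x) :
    ∃ S : Finset V, x = sgs S := by
  refine ⟨Finset.univ.filter (fun v => x v = 1), ?_⟩
  funext v
  unfold sgs
  rcases hx v with h | h <;> simp [h]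

end Pool.Agent.H439R2.MC
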