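import Pool.Agent.H439R2.MC.Core
import Pool.Agent.H439R2.MC.Red

set_option autoImplicit false
set_option linter.unusedSectionVars false

namespace Pool.Agent.H439R2.MC
open Finset

variable {V : Type} [Fintype V] [DecidableEq V]

/-- excess weight -/
def exc (w : V → V → ℤ) : V → V → ℤ := fun u v => w u v - 1 + (if u = v then 1 else 0)

theorem exc_wt (w : V → V → ℤ) (hw : Wt w) : Wt (exc w) := by
  constructor
  · intro u v
    unfold exc
    rw [hw.1 u v]
    by_cases h : u = v
    · simp [h]
    · simp [h, Ne.symm h]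
  · intro u; unfold exc; rw [hw.2]; simp

theorem exc_nonneg (w : V → V → ℤ) (hw : Wt w) (hpos : ∀ u v, u ≠ v → 1 ≤ w u v) (u v : V) :
    0 ≤ exc w u v := by
  unfold exc
  by_cases h : u = v
  · subst h; rw [hw.2]; simp
  · have := hpos u v h
    simp [h]; linarith

theorem exc_En (w : V → V → ℤ) (x : V → ℤ) (hx : Sg x) :
    En w x = (∑ v, x v) ^ 2 - Fintype.card V + En (exc w) x := by
  unfold En exc
  have e1 : ∑ u, ∑ v, x u * x v = (∑ v, x v) ^ 2 := by rw [sq, Finset.sum_mul_sum]
  have e3 : ∑ u, ∑ v, (if u = v then (1:ℤ) else 0) * (x u * x v) = Fintype.card V := by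
    have : ∀ u, ∑ v, (if u = v then (1:ℤ) else 0) * (x u * x v) = 1 := by
      intro u
      rw [Finset.sum_eq_single u]
      · simp [hx.sq u]
      · intro b _ hb; simp [Ne.symm hb]
      · intro h; exact absurd (Finset.mem_univ _) h
    simp only [this]
    simp
  rw [← e1, ← e3]
  simp only [← Finset.sum_sub_distrib, ← Finset.sum_add_distrib]
  exact Finset.sum_congr rfl fun u _ => Finset.sum_congr rfl fun v _ => by ring

theorem exc_tot (w : V → V → ℤ) :
    tot w = (Fintype.card V : ℤ) ^ 2 - Fintype.card V + tot (exc w) := by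
  have := exc_En w (fun _ => 1) (fun _ => Or.inl rfl)
  have e1 : En w (fun _ => 1) = tot w := by unfold En tot; simp
  have e2 : En (exc w) (fun _ => 1) = tot (exc w) := by unfold En tot; simp
  rw [e1, e2] at this
  rw [this]; simp

/-- Step 3 of the proof. -/
theorem step3 (w : V → V → ℤ) (hw : Wt w) (hpos : ∀ u v, u ≠ v → 1 ≤ w u v) (B : ℤ)
    (H : ∀ x, Sg x → tot w - En w x ≤ B)
    (hC : 2 * (B - tot w - Fintype.card V) - 1 ≤ Fintype.card V)
    (hD : (B - tot w - Fintype.card V) + 3 ≤ Fintype.card V) :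
    ∃ (n' : ℤ) (U : Type) (_ : Fintype U) (_ : DecidableEq U) (R : U → U → ℤ),
      Fintype.card V ≤ n' ∧ Wt R ∧ tot w - n' ^ 2 + n' ≤ tot R ∧
      ∀ c, HC R c → ∃ x : V → ℤ, Sg x ∧ En w x ≤ tot w - (n' ^ 2 - 1) - 4 * c := by
  classical
  have hh := exc_wt w hw
  have hh0 := exc_nonneg w hw hpos
  obtain ⟨p, f, hinj, hR, hA, hB, hCw⟩ := exists_pairs (fun u v : V => 1 ≤ exc w u v) (exc w)
  obtain ⟨Z, _, e, he1, hZ⟩ := exists_equiv_of_inj f hinj
  let h : KK (Fin p) Z → KK (Fin p) Z → ℤ := fun a b => exc w (e a) (e b)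
  have hhw : Wt h := Wt_equiv e _ hh
  have hcardV : (Fintype.card V : ℤ) = 2 * Fintype.card (Fin p) + Fintype.card Z := by
    have := Fintype.card_congr e
    simp only [Fintype.card_sum] at this
    rw [← this]; push_cast; ring
  have hne : ∀ z z' : Z, z ≠ z' → e (Sum.inr z) ≠ e (Sum.inr z') := by
    intro z z' h1 h2; exact h1 (by simpa using h2)
  have key := core h hhw (fun _ _ => hh0 _ _) ?_ ?_ ?_ ?_ (B - tot w - Fintype.card V) ?_
    (by rw [← hcardV]; exact hC) (by rw [← hcardV]; exact hD)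
  · obtain ⟨n', R, h1, h2, h3, h4⟩ := key
    have ht : tot h = tot (exc w) := tot_equiv e _
    have htw := exc_tot w
    refine ⟨n', KK (Fin p) Z, inferInstance, inferInstance, R, by rw [hcardV]; exact h1, h2, ?_, ?_⟩
    · rw [← hcardV, ht] at h3
      linarith
    · intro c hc
      obtain ⟨x, hx, hE⟩ := h4 c hc
      refine ⟨fun v => x (e.symm v), fun v => hx _, ?_⟩
      rw [exc_En w _ (fun v => hx _)]
      have e1 : En (exc w) (fun v => x (e.symm v)) = En h x := by
        rw [← En_equiv e (exc w)]; simp [h]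
      have e2 : ∑ v, x (e.symm v) = ∑ a, x a := Equiv.sum_comp e.symm x
      rw [e1, e2]
      rw [← hcardV, ht] at hE
      linarith
  · intro z z'
    by_cases hz : z = z'
    · subst hz; exact hh.2 _
    · have h1 := hA _ _ (hZ z) (hZ z') (hne z z' hz)
      have h2 := hh0 (e (Sum.inr z)) (e (Sum.inr z'))
      simp only [h]
      omega
  · intro i
    simp only [h, he1]
    exact hR i
  · intro i z z' hzz h1
    simp only [h, he1] at h1 ⊢
    have h2 := hB i _ _ (hZ z) (hZ z') (hne z z' hzz) h1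
    omega
  · intro i z
    simp only [h, he1]
    by_cases h1 : 1 ≤ exc w (f (Sum.inl i)) (e (Sum.inr z))
    · exact hCw i _ (hZ z) h1
    · have h2 := hh0 (f (Sum.inl i)) (f (Sum.inr i))
      omega
  · intro x hx
    have h1 := H (fun v => x (e.symm v)) (fun v => hx _)
    rw [exc_En w _ (fun v => hx _)] at h1
    have e1 : En (exc w) (fun v => x (e.symm v)) = En h x := by
      rw [← En_equiv e (exc w)]; simp [h]
    have e2 : ∑ v, x (e.symm v) = ∑ a, x a := Equiv.sum_comp e.symm x
    rw [e1, e2] at h1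
    linarith

/-- the cut formula -/
theorem cut_formula (h : V → V → ℤ) (hw : Wt h) (x : V → ℤ) (hx : Sg x) :
    tot h - En h x = 4 * ∑ u, (if x u = 1 then ∑ v, (if x v = -1 then h u v else 0) else 0) := by
  have h1 : tot h - En h x = 2 * ∑ u, ∑ v, (if x u = 1 ∧ x v = -1 then h u v else 0)
      + 2 * ∑ u, ∑ v, (if x u = -1 ∧ x v = 1 then h u v else 0) := by
    unfold tot En
    simp only [Finset.mul_sum, ← Finset.sum_sub_distrib, ← Finset.sum_add_distrib]
    refine Finset.sum_congr rfl fun u _ => Finset.sum_congr rfl fun v _ => ?_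
    rcases hx u with h | h <;> rcases hx v with h' | h' <;> simp [h, h'] <;> ring
  have h2 : ∑ u, ∑ v, (if x u = -1 ∧ x v = 1 then h u v else 0)
      = ∑ u, ∑ v, (if x u = 1 ∧ x v = -1 then h u v else 0) := by
    rw [Finset.sum_comm]
    refine Finset.sum_congr rfl fun u _ => Finset.sum_congr rfl fun v _ => ?_
    rw [hw.1 u v]
    by_cases ha : x u = 1 <;> by_cases hb : x v = -1 <;> simp [ha, hb]
  have h3 : ∑ u, (if x u = 1 then ∑ v, (if x v = -1 then h u v else 0) else 0)
      = ∑ u, ∑ v, (if x u = 1 ∧ x v = -1 then h u v else 0) := by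
    refine Finset.sum_congr rfl fun u _ => ?_
    by_cases ha : x u = 1 <;> simp [ha]
  rw [h1, h2, h3]; ring

/-- Rebalancing. -/
theorem rebal (h : V → V → ℤ) (hw : Wt h) (hpos : ∀ u v, 0 ≤ h u v) (c : ℤ) (hc : HC h c) :
    ∃ x, Sg x ∧ (∑ v, x v) ^ 2 ≤ 1 ∧ En h x ≤ tot h - 4 * min c ((Fintype.card V + 1) / 2) := by
  obtain ⟨x0, hx0, hP0, hmin0⟩ := exists_min_sg (V := V)
    (fun x => En h x ≤ tot h - 4 * min c ((Fintype.card V + 1) / 2))
    (fun x => |∑ v, x v|) (by
      obtain ⟨x, hx, h⟩ := hc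
      exact ⟨x, hx, by have := min_le_left c ((Fintype.card V + 1 : ℤ) / 2); linarith⟩)
  obtain ⟨x, hx, hP, hmin, hJ0⟩ : ∃ x, Sg x ∧
      En h x ≤ tot h - 4 * min c ((Fintype.card V + 1) / 2) ∧
      (∀ y, Sg y → En h y ≤ tot h - 4 * min c ((Fintype.card V + 1) / 2) →
        |∑ v, x v| ≤ |∑ v, y v|) ∧ 0 ≤ ∑ v, x v := by
    rcases le_total 0 (∑ v, x0 v) with h | h
    · exact ⟨x0, hx0, hP0, hmin0, h⟩
    · have hJn : ∑ v, - x0 v = - ∑ v, x0 v := Finset.sum_neg_distrib _
      refine ⟨fun v => - x0 v, hx0.neg, ?_, ?_, ?_⟩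
      · rw [En_neg]; exact hP0
      · intro y hy hE
        rw [hJn, abs_neg]
        exact hmin0 y hy hE
      · rw [hJn]; linarith
  refine ⟨x, hx, ?_, hP⟩
  by_contra hcon
  push Not at hcon
  have hS2 : 2 ≤ ∑ v, x v := by nlinarith
  have hflip : ∀ u, x u = 1 → tot h - 4 * min c ((Fintype.card V + 1) / 2)
      < En h (fun z => if z = u then - x z else x z) := by
    intro u hu
    by_contra hc2
    push Not at hc2
    have h1 := hmin _ (hx.flip u) hc2
    have h3 : ∑ z, (if z = u then - x z else x z) = ∑ z, x z - 2 := by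
      have : ∀ z, (if z = u then - x z else x z) = x z - (if z = u then 2 else 0) := by
        intro z
        split_ifs with h
        · subst h; rw [hu]; norm_num
        · ring
      simp only [this, Finset.sum_sub_distrib]
      simp
    rw [h3, abs_of_nonneg hJ0, abs_of_nonneg (by linarith)] at h1
    linarith
  -- the number of positive vertices
  set A := Finset.univ.filter (fun v => x v = 1) with hA
  have hcardA : 2 * (A.card : ℤ) = Fintype.card V + ∑ v, x v := by
    have h1 : ∀ v, x v = 2 * (if x v = 1 then (1:ℤ) else 0) - 1 := by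
      intro v; rcases hx v with h | h <;> rw [h] <;> norm_num
    rw [Finset.sum_congr rfl fun v _ => h1 v, Finset.sum_sub_distrib, ← Finset.mul_sum]
    have k0 : ∑ v, (if x v = 1 then (1:ℤ) else 0) = A.card :=
      Finset.sum_boole (fun v => x v = 1) Finset.univ
    rw [k0]; simp
  have hrow : ∀ u, x u = 1 → 1 ≤ ∑ v, (if x v = -1 then h u v else 0) := by
    intro u hu
    have h1 := hflip u hu
    rw [En_flip h hw, hu] at h1
    have h2 : row h x u < 0 := by linarith
    unfold row at h2
    have h3 : ∑ v, (if x v = 1 then h u v else 0) - ∑ v, (if x v = -1 then h u v else 0) < 0 := by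
      rw [← Finset.sum_sub_distrib]
      refine lt_of_eq_of_lt (Finset.sum_congr rfl fun v _ => ?_) h2
      rcases hx v with h | h <;> rw [h] <;> norm_num
    have h4 : 0 ≤ ∑ v, (if x v = 1 then h u v else 0) :=
      Finset.sum_nonneg fun v _ => by split_ifs <;> simp [hpos]
    linarith
  -- pick a vertex of A
  have hApos : 0 < A.card := by
    have : (0:ℤ) ≤ Fintype.card V := Int.natCast_nonneg _
    omega
  obtain ⟨u, hu⟩ := Finset.card_pos.1 hApos
  have hu1 : x u = 1 := by simpa [hA] using hu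
  have h1 := hflip u hu1
  have hcf := cut_formula h hw _ (hx.flip u)
  have hlow : ((A.erase u).card : ℤ) ≤ ∑ a, (if (if a = u then - x a else x a) = 1 then
      ∑ v, (if (if v = u then - x v else x v) = -1 then h a v else 0) else 0) := by
    have e1 : ((A.erase u).card : ℤ) = ∑ a, (if a ∈ A.erase u then (1:ℤ) else 0) := by
      rw [Finset.sum_boole, Finset.filter_mem_eq_inter, Finset.univ_inter]
    have nn : ∀ (P : Prop) [Decidable P] (Q : V → Prop) [DecidablePred Q] (a : V),
        0 ≤ (if P then ∑ v, (if Q v then h a v else 0) else 0) := by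
      intro P _ Q _ a
      split_ifs
      · exact Finset.sum_nonneg fun v _ => by split_ifs <;> simp [hpos]
      · exact le_refl _
    rw [e1]
    refine Finset.sum_le_sum fun a _ => ?_
    by_cases ha : a ∈ A.erase u
    · have hau : a ≠ u := (Finset.mem_erase.1 ha).1
      have ha1 : x a = 1 := by
        have := (Finset.mem_erase.1 ha).2
        simpa [hA] using this
      simp only [ha, hau, if_true, if_false, ha1]
      refine (hrow a ha1).trans (Finset.sum_le_sum fun v _ => ?_)
      by_cases hv : v = u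
      · subst hv
        rw [hu1]; simp [hpos]
      · simp [hv]
    · simp only [ha, if_false]
      exact nn _ (fun v => (if v = u then - x v else x v) = -1) a
  rw [Finset.card_erase_of_mem hu] at hlow
  have h5 := min_le_right c ((Fintype.card V + 1 : ℤ) / 2)
  have h6 : ((A.card - 1 : ℕ) : ℤ) = A.card - 1 := by omega
  rw [h6] at hlow
  omega

/-- Step 2 of the proof. -/
theorem step2 (w : V → V → ℤ) (hw : Wt w) (hpos : ∀ u v, u ≠ v → 1 ≤ w u v) (c : ℤ)
    (hc : HC (exc w) c) :
    ∃ x, Sg x ∧ En w x ≤ tot w - ((Fintype.card V : ℤ) ^ 2 - 1)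
      - 4 * min c ((Fintype.card V + 1) / 2) := by
  obtain ⟨x, hx, h1, h2⟩ := rebal (exc w) (exc_wt w hw) (exc_nonneg w hw hpos) c hc
  refine ⟨x, hx, ?_⟩
  rw [exc_En w x hx]
  have := exc_tot w
  linarith

end Pool.Agent.H439R2.MC
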