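import Pool.Agent.H439R2.MC.T3
import Pool.Agent.H439R2.MC.Pairs

set_option autoImplicit false
set_option linter.unusedSectionVars false

namespace Pool.Agent.H439R2.MC
open Finset

variable {I Y : Type} [Fintype I] [Fintype Y] [DecidableEq I] [DecidableEq Y]

theorem struct (h : KK I Y → KK I Y → ℤ) (hw : Wt h)
    (c1 : ∀ y y', h (Sum.inr y) (Sum.inr y') = 0)
    (c2 : ∀ i, 1 ≤ h (Sum.inl (Sum.inl i)) (Sum.inl (Sum.inr i)))
    (V' : ℤ) (H : ∀ x : KK I Y → ℤ, Sg x → - V' ≤ (∑ v, x v) ^ 2 + En h x)
    (hD : V' + 3 ≤ 2 * Fintype.card I + Fintype.card Y) :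
    ∃ (g : I → ℤ) (ρ : ℕ) (mis : ℤ),
      (Finset.univ.filter (fun y => gam h y ≠ g)).card ≤ ρ ∧
      2 * (Fintype.card I : ℤ) + 2 * ρ + ∑ i, |g i| ≤ V' + mis ∧ 0 ≤ mis ∧ mis ≤ 1 ∧
      (mis = 1 → ((Fintype.card Y : ℤ) + ∑ i, |g i|) % 2 = 1) := by
  classical
  obtain ⟨ρ, f, hinj, hR, hA, hB, -⟩ := exists_pairs (fun y y' : Y => gam h y ≠ gam h y')
    (fun _ _ => 0)
  obtain ⟨Z, _, e, he1, hZmem⟩ := exists_equiv_of_inj f hinj
  have hcard : Fintype.card Y = 2 * ρ + Fintype.card Z := by
    have := Fintype.card_congr e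
    simp only [Fintype.card_sum, Fintype.card_fin] at this
    omega
  have hall : ∀ z z' : Z, gam h (e (Sum.inr z)) = gam h (e (Sum.inr z')) := by
    intro z z'
    by_cases hz : e (Sum.inr z) = e (Sum.inr z')
    · rw [hz]
    · by_contra hcon
      exact hA _ _ (hZmem z) (hZmem z') hz hcon
  obtain ⟨g, hg⟩ : ∃ g : I → ℤ, ∀ z : Z, gam h (e (Sum.inr z)) = g := by
    by_cases hne : Nonempty Z
    · obtain ⟨z0⟩ := hne
      exact ⟨gam h (e (Sum.inr z0)), fun z => hall z z0⟩
    · exact ⟨fun _ => 0, fun z => absurd ⟨z⟩ hne⟩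
  have hL : ∀ l, gam h (e (Sum.inl (Sum.inl l))) ≠ gam h (e (Sum.inl (Sum.inr l))) := by
    intro l; rw [he1, he1]; exact hR l
  have hM : (Fintype.card I : ℤ) ≤ ∑ i, h (Sum.inl (Sum.inl i)) (Sum.inl (Sum.inr i)) := by
    have : (Fintype.card I : ℤ) = ∑ i : I, (1:ℤ) := by simp
    rw [this]
    exact Finset.sum_le_sum fun i _ => c2 i
  -- first application
  have hZ2 : 2 ≤ Fintype.card Z := by
    obtain ⟨x, hx, hE⟩ := T3 h hw c1 e hL g hg (fun _ => none)
    have h1 := H x hx
    have h2 : ∑ i : I, (((Finset.univ.filter (fun _ : Z => (none : Option I) = some i)).card : ℤ) ^ 2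
          - 2 * (Finset.univ.filter (fun _ : Z => (none : Option I) = some i)).card * |g i|) = 0 := by
      refine Finset.sum_eq_zero fun i _ => ?_
      simp
    rw [h2, Fintype.card_fin] at hE
    have h3 : (((Finset.univ.filter (fun _ : Z => (none : Option I) = none)).card % 2 : ℕ) : ℤ) ≤ 1 := by
      have := Nat.mod_lt ((Finset.univ.filter (fun _ : Z => (none : Option I) = none)).card)
        (show 2 > 0 by norm_num)
      omega
    omega
  obtain ⟨z1, z2, hz12⟩ := Fintype.one_lt_card_iff.1 (by omega : 1 < Fintype.card Z)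
  have hpair : ∀ l, gam h (f (Sum.inl l)) = g ∨ gam h (f (Sum.inr l)) = g := by
    intro l
    by_contra hcon
    push Not at hcon
    refine hB l (e (Sum.inr z1)) (e (Sum.inr z2)) (hZmem z1) (hZmem z2)
      (fun h => hz12 (by simpa using h)) ?_ ?_
    · rw [hg z1]; exact hcon.1
    · rw [hg z2]; exact hcon.2
  have hdev : (Finset.univ.filter (fun y => gam h y ≠ g)).card ≤ ρ := by
    rw [Finset.card_filter, ← Equiv.sum_comp e (fun y => if gam h y ≠ g then 1 else 0)]
    simp only [Fintype.sum_sum_type, he1, hg, ne_eq, not_true_eq_false, if_false,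
      Finset.sum_const_zero, add_zero]
    rw [← Finset.sum_add_distrib]
    have : ∀ l, ((if ¬ gam h (f (Sum.inl l)) = g then 1 else 0)
        + (if ¬ gam h (f (Sum.inr l)) = g then 1 else 0) : ℕ) ≤ 1 := by
      intro l
      rcases hpair l with h | h <;> simp [h] <;> split_ifs <;> norm_num
    refine (Finset.sum_le_sum fun l _ => this l).trans ?_
    simp
  -- second application
  obtain ⟨κ, hκ1, hκ2⟩ := exists_kappa (Z := Z) (fun i => (g i).natAbs)
  obtain ⟨x, hx, hE⟩ := T3 h hw c1 e hL g hg κ
  have h1 := H x hx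
  rw [Fintype.card_fin] at hE
  have hfib : (Fintype.card Z : ℤ) = ((Finset.univ.filter (fun z => κ z = none)).card : ℤ)
      + ∑ i, ((Finset.univ.filter (fun z => κ z = some i)).card : ℤ) := by
    have := Finset.card_eq_sum_card_fiberwise (s := (Finset.univ : Finset Z))
      (t := (Finset.univ : Finset (Option I))) (f := κ) (fun _ _ => Finset.mem_coe.2 (Finset.mem_univ _))
    rw [Finset.card_univ, Fintype.sum_option] at this
    exact_mod_cast this
  have habs : ∀ i, ((g i).natAbs : ℤ) = |g i| := fun i => Int.natCast_natAbs (g i)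
  rcases hκ2 with hfull | hno
  · refine ⟨g, ρ, ((Finset.univ.filter (fun z => κ z = none)).card % 2 : ℕ), hdev, ?_, ?_, ?_, ?_⟩
    · have h2 : ∑ i : I, (((Finset.univ.filter (fun z => κ z = some i)).card : ℤ) ^ 2
          - 2 * (Finset.univ.filter (fun z => κ z = some i)).card * |g i|) ≤ - ∑ i, |g i| := by
        rw [← Finset.sum_neg_distrib]
        refine Finset.sum_le_sum fun i _ => ?_
        rw [hfull i, habs]
        have h0 : (0:ℤ) ≤ |g i| := abs_nonneg _
        have h00 : |g i| ≤ |g i| * |g i| := by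
          rcases Int.lt_or_le 0 |g i| with h | h
          · nlinarith
          · have : |g i| = 0 := le_antisymm h h0
            rw [this]; norm_num
        nlinarith
      linarith
    · positivity
    · have := Nat.mod_lt ((Finset.univ.filter (fun z => κ z = none)).card)
        (show 2 > 0 by norm_num)
      omega
    · intro hm
      have h3 : ∑ i, ((Finset.univ.filter (fun z => κ z = some i)).card : ℤ) = ∑ i, |g i| :=
        Finset.sum_congr rfl fun i _ => by rw [hfull i, habs]
      rw [h3] at hfib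
      have h4 : (Finset.univ.filter (fun z => κ z = none)).card % 2 = 1 := by exact_mod_cast hm
      have h5 : (Fintype.card Y : ℤ) = 2 * ρ + Fintype.card Z := by exact_mod_cast hcard
      generalize (Finset.univ.filter (fun z => κ z = none)).card = q at *
      omega
  · exfalso
    have h0 : (Finset.univ.filter (fun z => κ z = none)).card = 0 := by
      rw [Finset.card_eq_zero, Finset.filter_eq_empty_iff]
      intro z _; exact hno z
    rw [h0] at hfib hE
    have h2 : ∑ i : I, (((Finset.univ.filter (fun z => κ z = some i)).card : ℤ) ^ 2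
          - 2 * (Finset.univ.filter (fun z => κ z = some i)).card * |g i|)
        ≤ - ∑ i, ((Finset.univ.filter (fun z => κ z = some i)).card : ℤ) := by
      rw [← Finset.sum_neg_distrib]
      refine Finset.sum_le_sum fun i _ => ?_
      have h3 : ((Finset.univ.filter (fun z => κ z = some i)).card : ℤ) ≤ |g i| := by
        rw [← habs]; exact_mod_cast hκ1 i
      have h4 : (0:ℤ) ≤ ((Finset.univ.filter (fun z => κ z = some i)).card : ℤ) :=
        Int.natCast_nonneg _
      generalize ((Finset.univ.filter (fun z => κ z = some i)).card : ℤ) = t at *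
      have h5 : t ≤ t * t := by
        rcases Int.lt_or_le 0 t with h | h
        · nlinarith
        · have : t = 0 := le_antisymm h h4
          rw [this]; norm_num
      nlinarith
    simp only [Nat.cast_zero, zero_add] at hfib
    have h5 : (Fintype.card Y : ℤ) = 2 * ρ + Fintype.card Z := by exact_mod_cast hcard
    simp only [Nat.zero_mod, Nat.cast_zero] at hE
    linarith

end Pool.Agent.H439R2.MC
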