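import Pool.Agent.H439R2.MC.Basic

set_option autoImplicit false
set_option linter.unusedSectionVars false

namespace Pool.Agent.H439R2.MC
open Finset

theorem exists_sg_sum (V : Type) [Fintype V] (k : ℕ) (hk : k ≤ Fintype.card V) :
    ∃ x : V → ℤ, Sg x ∧ ∑ v, x v = (Fintype.card V : ℤ) - 2 * k := by
  classical
  obtain ⟨S, _, hS⟩ := Finset.exists_subset_card_eq (s := (Finset.univ : Finset V)) (n := k)
    (by simpa using hk)
  refine ⟨fun v => if v ∈ S then -1 else 1, ?_, ?_⟩
  · intro v; by_cases h : v ∈ S <;> simp [h]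
  · have h : ∀ v : V, (if v ∈ S then (-1 : ℤ) else 1) = 1 - 2 * (if v ∈ S then 1 else 0) := by
      intro v; split_ifs <;> norm_num
    simp only [h, Finset.sum_sub_distrib, ← Finset.mul_sum]
    simp [hS]

/-- signs making `I + ∑ σ` at most one in absolute value -/
theorem exists_sg_bal (W : Type) [Fintype W] (I : ℤ) (h0 : 0 ≤ I)
    (h1 : I ≤ Fintype.card W + 1) :
    ∃ x : W → ℤ, Sg x ∧ -1 ≤ I + ∑ v, x v ∧ I + ∑ v, x v ≤ 1 := by
  obtain ⟨x, hx, hs⟩ := exists_sg_sum W ((I + Fintype.card W) / 2).toNat (by omega)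
  refine ⟨x, hx, ?_, ?_⟩
  · rw [hs, Int.toNat_of_nonneg (by omega)]; omega
  · rw [hs, Int.toNat_of_nonneg (by omega)]; omega

variable {V : Type} [Fintype V] [DecidableEq V]

theorem row_flip (w : V → V → ℤ) (x : V → ℤ) (u v : V) :
    row w (fun z => if z = u then - x z else x z) v = row w x v - 2 * (w v u * x u) := by
  unfold row
  have : ∀ z, w v z * (if z = u then - x z else x z)
      = w v z * x z - (if z = u then 2 * (w v u * x u) else 0) := by
    intro z
    split_ifs with h
    · subst h; ring
    · ring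
  simp only [this, Finset.sum_sub_distrib]
  simp

theorem En_flip2 (w : V → V → ℤ) (hw : Wt w) (x : V → ℤ) (u v : V) (huv : v ≠ u) :
    En w (fun z => if z = v then - (if z = u then - x z else x z)
      else (if z = u then - x z else x z))
    = En w x - 4 * (x u * row w x u) - 4 * (x v * row w x v) + 8 * (x u * x v * w u v) := by
  rw [En_flip w hw (fun z => if z = u then - x z else x z) v, En_flip w hw x u, row_flip]
  simp only [huv, if_false]
  rw [hw.1 v u]
  ring

theorem T1even (w : V → V → ℤ) (hw : Wt w) (q : ℕ) (hpos : 1 ≤ q)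
    (hq : Fintype.card V = 2 * q) (B : ℤ)
    (H : ∀ x, Sg x → tot w - En w x ≤ B) : tot w * (2 * q) ≤ B * (2 * q - 1) := by
  obtain ⟨x, hx, hs, hmin⟩ := exists_min_sg (V := V) (fun x => ∑ v, x v = 0) (fun x => En w x)
    (by
      obtain ⟨x, hx, hs⟩ := exists_sg_sum V q (by omega)
      exact ⟨x, hx, by rw [hs, hq]; push_cast; ring⟩)
  have key : ∀ u v, 0 ≤ (1 + x u) * (1 - x v) * (row w x v - row w x u - 2 * w u v) := by
    intro u v
    rcases hx u with hu | hu
    · rcases hx v with hv | hv
      · rw [hv]; simp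
      · have huv : v ≠ u := by rintro rfl; rw [hu] at hv; norm_num at hv
        have h1 := hmin _ ((hx.flip u).flip v) (by
          have : ∀ z, (if z = v then - (if z = u then - x z else x z)
              else (if z = u then - x z else x z))
              = x z + (if z = v then 2 else 0) - (if z = u then 2 else 0) := by
            intro z
            by_cases h1 : z = v
            · have : z ≠ u := by rw [h1]; exact huv
              simp [h1, huv, hv]
            · by_cases h2 : z = u
              · simp [h2, Ne.symm huv, hu]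
              · simp [h1, h2]
          simp only [this, Finset.sum_add_distrib, Finset.sum_sub_distrib, hs]
          simp)
        rw [En_flip2 w hw x u v huv, hu, hv] at h1
        rw [hu, hv]
        nlinarith [h1]
    · rw [hu]; simp
  have hsum : 0 ≤ ∑ u, ∑ v, (1 + x u) * (1 - x v) * (row w x v - row w x u - 2 * w u v) :=
    Finset.sum_nonneg fun u _ => Finset.sum_nonneg fun v _ => key u v
  have hE := En_eq_row w x
  -- expand
  have e1 : ∑ u, ∑ v, (1 + x u) * (1 - x v) * (row w x v - row w x u - 2 * w u v)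
      = (∑ u, (1 + x u)) * (∑ v, (1 - x v) * row w x v)
        - (∑ u, (1 + x u) * row w x u) * (∑ v, (1 - x v))
        - 2 * ∑ u, ∑ v, (1 + x u) * (1 - x v) * w u v := by
    rw [Finset.sum_mul_sum, Finset.sum_mul_sum, Finset.mul_sum, ← Finset.sum_sub_distrib,
      ← Finset.sum_sub_distrib]
    refine Finset.sum_congr rfl fun u _ => ?_
    rw [Finset.mul_sum, ← Finset.sum_sub_distrib, ← Finset.sum_sub_distrib]
    refine Finset.sum_congr rfl fun v _ => by ring
  have e2 : ∑ u, (1 + x u) = 2 * (q:ℤ) := by
    rw [Finset.sum_add_distrib, hs]; simp [hq]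
  have e3 : ∑ u, (1 - x u) = 2 * (q:ℤ) := by
    rw [Finset.sum_sub_distrib, hs]; simp [hq]
  have e4 : ∑ v, (1 - x v) * row w x v = ∑ v, row w x v - En w x := by
    rw [hE, ← Finset.sum_sub_distrib]
    exact Finset.sum_congr rfl fun v _ => by ring
  have e5 : ∑ v, (1 + x v) * row w x v = ∑ v, row w x v + En w x := by
    rw [hE, ← Finset.sum_add_distrib]
    exact Finset.sum_congr rfl fun v _ => by ring
  have e6 : ∑ u, ∑ v, (1 + x u) * (1 - x v) * w u v = tot w - En w x := by
    have h1 : ∑ u, ∑ v, (1 + x u) * (1 - x v) * w u v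
        = tot w - En w x + (∑ u, ∑ v, x u * w u v - ∑ u, ∑ v, x v * w u v) := by
      unfold tot En
      simp only [← Finset.sum_sub_distrib, ← Finset.sum_add_distrib]
      refine Finset.sum_congr rfl fun u _ => Finset.sum_congr rfl fun v _ => by ring
    have h2 : ∑ u, ∑ v, x u * w u v = ∑ u, ∑ v, x v * w u v := by
      rw [Finset.sum_comm]
      refine Finset.sum_congr rfl fun u _ => Finset.sum_congr rfl fun v _ => ?_
      rw [hw.1 u v]
    rw [h1, h2]; ring
  rw [e1, e2, e3, e4, e5, e6] at hsum
  have hB := H x hx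
  have h3 : tot w ≤ - (2 * (q:ℤ) - 1) * En w x := by nlinarith
  have h4 : (0:ℤ) ≤ 2 * (q:ℤ) - 1 := by
    have : (1:ℤ) ≤ q := by exact_mod_cast hpos
    linarith
  nlinarith [mul_le_mul_of_nonneg_left hB h4]

theorem T1odd (w : V → V → ℤ) (hw : Wt w) (q : ℕ) (hpos : 1 ≤ q)
    (hq : Fintype.card V + 1 = 2 * q) (B : ℤ)
    (H : ∀ x, Sg x → tot w - En w x ≤ B) : tot w * (2 * q) ≤ B * (2 * q - 1) := by
  let w' : Option V → Option V → ℤ := fun a b => a.elim 0 (fun a => b.elim 0 (fun b => w a b))
  have hw' : Wt w' := by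
    constructor
    · intro a b
      cases a <;> cases b <;> simp [w', hw.1]
    · intro a
      cases a <;> simp [w', hw.2]
  have ht : tot w' = tot w := by
    unfold tot; simp [w', Fintype.sum_option]
  have hE : ∀ x, En w' x = En w (fun v => x (some v)) := by
    intro x
    unfold En; simp [w', Fintype.sum_option]
  have := T1even w' hw' q hpos (by simpa using hq) B (by
    intro x hx
    rw [ht, hE]
    exact H _ (fun v => hx (some v)))
  rwa [ht] at this

end Pool.Agent.H439R2.MC
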