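import Pool.Agent.H439R2.MC.Block
import Pool.Agent.H439R2.MC.T1

set_option autoImplicit false
set_option linter.unusedSectionVars false

namespace Pool.Agent.H439R2.MC
open Finset

variable {I Y : Type} [Fintype I] [Fintype Y] [DecidableEq I] [DecidableEq Y]

/-- difference vector of an unmatched vertex -/
def gam (h : KK I Y → KK I Y → ℤ) (y : Y) (i : I) : ℤ :=
  h (Sum.inl (Sum.inl i)) (Sum.inr y) - h (Sum.inl (Sum.inr i)) (Sum.inr y)

theorem exists_alt {Z : Type} [Fintype Z] (p : Z → Prop) [DecidablePred p] :
    ∃ a : Z → ℤ, Sg a ∧ (∑ z, if p z then a z else 0) =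
      ((Finset.univ.filter p).card % 2 : ℕ) := by
  obtain ⟨x, hx, hs⟩ := exists_sg_sum {z // p z} ((Fintype.card {z // p z}) / 2) (by omega)
  refine ⟨fun z => if hz : p z then x ⟨z, hz⟩ else 1, ?_, ?_⟩
  · intro z
    by_cases hz : p z
    · simpa [hz] using hx ⟨z, hz⟩
    · simp [hz]
  · have h1 : (∑ z, if p z then (if hz : p z then x ⟨z, hz⟩ else 1) else 0)
        = ∑ z : {z // p z}, x z := by
      rw [← Finset.sum_filter]
      rw [Finset.sum_subtype (Finset.univ.filter p) (p := p) (by simp)]
      refine Finset.sum_congr rfl fun z _ => ?_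
      simp [z.2]
    have hc : Fintype.card {z // p z} = (Finset.univ.filter p).card := Fintype.card_subtype p
    rw [h1, hs, hc]
    omega

theorem T3 (h : KK I Y → KK I Y → ℤ) (hw : Wt h)
    (hY : ∀ y y', h (Sum.inr y) (Sum.inr y') = 0)
    {L Z : Type} [Fintype L] [Fintype Z] (e : (L ⊕ L) ⊕ Z ≃ Y)
    (hL : ∀ l, gam h (e (Sum.inl (Sum.inl l))) ≠ gam h (e (Sum.inl (Sum.inr l))))
    (g : I → ℤ) (hg : ∀ z, gam h (e (Sum.inr z)) = g) (κ : Z → Option I) :
    ∃ x : KK I Y → ℤ, Sg x ∧ (∑ v, x v) ^ 2 + En h x ≤
      -2 * (∑ i, h (Sum.inl (Sum.inl i)) (Sum.inl (Sum.inr i)))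
      - 2 * Fintype.card L
      + ∑ i, (((Finset.univ.filter (fun z => κ z = some i)).card : ℤ) ^ 2
          - 2 * (Finset.univ.filter (fun z => κ z = some i)).card * |g i|)
      + ((Finset.univ.filter (fun z => κ z = none)).card % 2 : ℕ) := by
  classical
  have hjl : ∀ l, ∃ (j : I) (c : ℤ), (c = 1 ∨ c = -1) ∧
      1 ≤ c * (gam h (e (Sum.inl (Sum.inl l))) j - gam h (e (Sum.inl (Sum.inr l))) j) := by
    intro l
    obtain ⟨j, hj⟩ := Function.ne_iff.1 (hL l)
    rcases lt_or_gt_of_ne hj with h1 | h1
    · exact ⟨j, -1, Or.inr rfl, by omega⟩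
    · exact ⟨j, 1, Or.inl rfl, by omega⟩
  choose j c hc hjc using hjl
  have hsg : ∀ i, ∃ s : ℤ, (s = 1 ∨ s = -1) ∧ s * g i = |g i| := by
    intro i
    rcases le_total 0 (g i) with h1 | h1
    · exact ⟨1, Or.inl rfl, by rw [abs_of_nonneg h1]; ring⟩
    · exact ⟨-1, Or.inr rfl, by rw [abs_of_nonpos h1]; ring⟩
  choose s hs hsg using hsg
  obtain ⟨a, ha, hasum⟩ := exists_alt (fun z => κ z = none)
  let bz : Z → Option I → ℤ := fun z k => match κ z with
    | none => if k = none then a z else 0
    | some i => if k = some i then - s i else 0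
  let bb : (L ⊕ L) ⊕ Z → Option I → ℤ := fun t k => match t with
    | Sum.inl (Sum.inl l) => if k = some (j l) then - c l else 0
    | Sum.inl (Sum.inr l) => if k = some (j l) then c l else 0
    | Sum.inr z => bz z k
  have hbz : ∀ z, IsU (bz z) := by
    intro z
    rcases hk : κ z with _ | i
    · exact ⟨none, a z, ha z, by funext k; simp [bz, hk]⟩
    · exact ⟨some i, - s i, by rcases hs i with h | h <;> simp [h], by funext k; simp [bz, hk]⟩
  have hbb : ∀ t, IsU (bb t) := by
    rintro ((l | l) | z)
    · exact ⟨some (j l), - c l, by rcases hc l with h | h <;> simp [h], by funext k; simp [bb]⟩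
    · exact ⟨some (j l), c l, hc l, by funext k; simp [bb]⟩
    · exact hbz z
  obtain ⟨x, hx, hE⟩ := I2 h hw hY (fun y => bb (e.symm y)) (fun y => hbb _)
  refine ⟨x, hx, hE.trans ?_⟩
  -- column sums
  have c1 : ∀ k, ∑ y, bb (e.symm y) k = ∑ z, bz z k := by
    intro k
    rw [← Equiv.sum_comp e (fun y => bb (e.symm y) k)]
    simp only [Equiv.symm_apply_apply, Fintype.sum_sum_type, bb]
    have : ∑ l, (if k = some (j l) then - c l else 0) + ∑ l, (if k = some (j l) then c l else 0)
        = 0 := by
      rw [← Finset.sum_add_distrib]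
      refine Finset.sum_eq_zero fun l _ => ?_
      split_ifs <;> ring
    rw [this, zero_add]
  have c2 : ∀ i, ∑ z, bz z (some i) = - s i * (Finset.univ.filter (fun z => κ z = some i)).card := by
    intro i
    have : ∀ z, bz z (some i) = if κ z = some i then - s i else 0 := by
      intro z
      rcases hk : κ z with _ | i'
      · simp [bz, hk]
      · by_cases h : i = i'
        · subst h; simp [bz, hk]
        · simp [bz, hk, h, Ne.symm h]
    simp only [this]
    rw [← Finset.sum_filter, Finset.sum_const]
    simp; ring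
  have c3 : ∑ z, bz z none = ((Finset.univ.filter (fun z => κ z = none)).card % 2 : ℕ) := by
    rw [← hasum]
    refine Finset.sum_congr rfl fun z _ => ?_
    rcases hk : κ z with _ | i'
    · simp [bz, hk]
    · simp [bz, hk]
  have c4 : ∑ k, (∑ y, bb (e.symm y) k) ^ 2
      = ((Finset.univ.filter (fun z => κ z = none)).card % 2 : ℕ)
        + ∑ i, ((Finset.univ.filter (fun z => κ z = some i)).card : ℤ) ^ 2 := by
    simp only [c1, Fintype.sum_option, c2, c3]
    congr 1
    · rcases Nat.mod_two_eq_zero_or_one (Finset.univ.filter (fun z => κ z = none)).card with h | h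
      · rw [h]; norm_num
      · rw [h]; norm_num
    · refine Finset.sum_congr rfl fun i _ => ?_
      rcases hs i with h | h <;> rw [h] <;> ring
  -- the cross term
  have c5 : ∑ i, ∑ y, bb (e.symm y) (some i) * (h (Sum.inl (Sum.inl i)) (Sum.inr y)
          - h (Sum.inl (Sum.inr i)) (Sum.inr y))
      = - ∑ l, c l * (gam h (e (Sum.inl (Sum.inl l))) (j l) - gam h (e (Sum.inl (Sum.inr l))) (j l))
        - ∑ i, (Finset.univ.filter (fun z => κ z = some i)).card * |g i| := by
    have d1 : ∀ i, ∑ y, bb (e.symm y) (some i) * (h (Sum.inl (Sum.inl i)) (Sum.inr y)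
          - h (Sum.inl (Sum.inr i)) (Sum.inr y))
        = (∑ l, if i = j l then - (c l * (gam h (e (Sum.inl (Sum.inl l))) (j l)
              - gam h (e (Sum.inl (Sum.inr l))) (j l))) else 0)
          - (Finset.univ.filter (fun z => κ z = some i)).card * |g i| := by
      intro i
      have : ∑ y, bb (e.symm y) (some i) * (h (Sum.inl (Sum.inl i)) (Sum.inr y)
          - h (Sum.inl (Sum.inr i)) (Sum.inr y))
          = ∑ y, bb (e.symm y) (some i) * gam h y i := rfl
      rw [this, ← Equiv.sum_comp e (fun y => bb (e.symm y) (some i) * gam h y i)]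
      simp only [Equiv.symm_apply_apply, Fintype.sum_sum_type]
      have t1 : ∑ z, bb (Sum.inr z) (some i) * gam h (e (Sum.inr z)) i
          = - (Finset.univ.filter (fun z => κ z = some i)).card * |g i| := by
        have : ∀ z, bb (Sum.inr z) (some i) * gam h (e (Sum.inr z)) i = bz z (some i) * g i := by
          intro z; rw [hg z]
        simp only [this, ← Finset.sum_mul, c2]
        rw [← hsg i]; ring
      rw [t1, ← Finset.sum_add_distrib]
      have t2 : ∀ l, bb (Sum.inl (Sum.inl l)) (some i) * gam h (e (Sum.inl (Sum.inl l))) i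
          + bb (Sum.inl (Sum.inr l)) (some i) * gam h (e (Sum.inl (Sum.inr l))) i
          = if i = j l then - (c l * (gam h (e (Sum.inl (Sum.inl l))) (j l)
              - gam h (e (Sum.inl (Sum.inr l))) (j l))) else 0 := by
        intro l
        by_cases h : i = j l
        · subst h; simp [bb]; ring
        · simp [bb, h]
      simp only [t2]
      ring
    simp only [d1, Finset.sum_sub_distrib]
    rw [Finset.sum_comm]
    simp
  have c6 : (Fintype.card L : ℤ) ≤ ∑ l, c l * (gam h (e (Sum.inl (Sum.inl l))) (j l)
      - gam h (e (Sum.inl (Sum.inr l))) (j l)) := by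
    have : (Fintype.card L : ℤ) = ∑ l : L, (1:ℤ) := by simp
    rw [this]
    exact Finset.sum_le_sum fun l _ => hjc l
  rw [c4, c5, Finset.sum_sub_distrib]
  have c7 : ∑ i, 2 * ((Finset.univ.filter (fun z => κ z = some i)).card : ℤ) * |g i|
      = 2 * ∑ i, ((Finset.univ.filter (fun z => κ z = some i)).card : ℤ) * |g i| := by
    rw [Finset.mul_sum]
    exact Finset.sum_congr rfl fun i _ => by ring
  rw [c7]
  linarith

/-- choice of the assignment -/
theorem exists_kappa {Z : Type} [Fintype Z] (c : I → ℕ) :
    ∃ κ : Z → Option I, (∀ i, (Finset.univ.filter (fun z => κ z = some i)).card ≤ c i) ∧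
      ((∀ i, (Finset.univ.filter (fun z => κ z = some i)).card = c i) ∨ ∀ z, κ z ≠ none) := by
  classical
  let S : Finset (Z → Option I) := Finset.univ.filter
    (fun κ => ∀ i, (Finset.univ.filter (fun z => κ z = some i)).card ≤ c i)
  have hne : S.Nonempty := ⟨fun _ => none, by simp [S]⟩
  obtain ⟨κ, hκ, hmax⟩ := Finset.exists_max_image S
    (fun κ => (Finset.univ.filter (fun z => κ z ≠ none)).card) hne
  have hκ' : ∀ i, (Finset.univ.filter (fun z => κ z = some i)).card ≤ c i := by
    simpa [S] using hκ
  refine ⟨κ, hκ', ?_⟩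
  by_contra hcon
  push Not at hcon
  obtain ⟨⟨i, hi⟩, z, hz⟩ := hcon
  have hlt : (Finset.univ.filter (fun z => κ z = some i)).card < c i := lt_of_le_of_ne (hκ' i) hi
  have h1 : Function.update κ z (some i) ∈ S := by
    simp only [S, Finset.mem_filter, Finset.mem_univ, true_and]
    intro k
    by_cases hk : k = i
    · subst hk
      have : (Finset.univ.filter (fun z' => Function.update κ z (some k) z' = some k))
          ⊆ insert z (Finset.univ.filter (fun z => κ z = some k)) := by
        intro z' hz'
        simp only [Finset.mem_filter, Finset.mem_univ, true_and] at hz'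
        by_cases h : z' = z
        · simp [h]
        · rw [Function.update_of_ne h] at hz'
          simp [hz']
      have h2 := Finset.card_le_card this
      have h3 := Finset.card_insert_le z (Finset.univ.filter (fun z => κ z = some k))
      omega
    · have : (Finset.univ.filter (fun z' => Function.update κ z (some i) z' = some k))
          ⊆ (Finset.univ.filter (fun z => κ z = some k)) := by
        intro z' hz'
        simp only [Finset.mem_filter, Finset.mem_univ, true_and] at hz' ⊢
        by_cases h : z' = z
        · subst h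
          rw [Function.update_self] at hz'
          exact absurd (Option.some.inj hz').symm hk
        · rwa [Function.update_of_ne h] at hz'
      exact (Finset.card_le_card this).trans (hκ' k)
  have h2 := hmax _ h1
  have h3 : insert z (Finset.univ.filter (fun z => κ z ≠ none))
      ⊆ (Finset.univ.filter (fun z' => Function.update κ z (some i) z' ≠ none)) := by
    intro z' hz'
    simp only [Finset.mem_filter, Finset.mem_univ, true_and, Finset.mem_insert] at hz' ⊢
    by_cases h : z' = z
    · subst h; simp
    · rw [Function.update_of_ne h]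
      exact hz'.resolve_left h
  have h4 := Finset.card_le_card h3
  rw [Finset.card_insert_of_notMem (by simp [hz])] at h4
  omega

end Pool.Agent.H439R2.MC
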