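import Pool.Agent.H439R2.MC.Simple
import Pool.Agent.Helper996.MinDeg

set_option autoImplicit false
set_option linter.unusedSectionVars false

namespace Pool.Agent.H439R2.MC
open Finset
open Pool.Agent.Helper996.Bisect Pool.Agent.Helper996.Twin Pool.Agent.Helper996.Final

theorem sum_sub_of_zero {V : Type} [Fintype V] (p : V → Prop) [DecidablePred p] (F : V → ℤ)
    (hF : ∀ v, ¬ p v → F v = 0) : ∑ v, F v = ∑ x : {v // p v}, F x := by
  rw [← Finset.sum_subtype (Finset.univ.filter p) (p := p) (by simp)]
  symm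
  apply Finset.sum_subset (Finset.subset_univ _)
  intro v _ hv
  exact hF v (by simpa using hv)

open scoped Classical in
/-- Lower bound in the twin structure by the extremal function `ff`. -/
theorem twin_lower_ff {V : Type} [Fintype V] [DecidableEq V] (G : SimpleGraph V) (T A : Finset V)
    (hT : ∀ w ∈ T, ∀ u, (G.Adj u w ↔ u ∈ A))
    (hbig : ((T ∪ A)ᶜ).card + A.card + 1 ≤ T.card) (k : ℕ)
    (hk : 2 * (k : ℤ) ≤ B G 1 1 - A.card * (A.card - 1 : ℤ)
      - 2 * A.card * (Fintype.card V - A.card)) :
    ∃ S : Finset V, S.card ≤ Sᶜ.card ∧ Sᶜ.card ≤ S.card + 1 ∧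
      2 * A.card * (Fintype.card V - sg V) + 4 * (ff k : ℤ) ≤ 4 * (cr G S : ℤ) := by
  have hTA : Disjoint T A := by
    rw [disjoint_left]
    intro w hw hwA
    exact G.loopless.irrefl w ((hT w hw w).mpr hwA)
  have hn : (Fintype.card V : ℤ) = T.card + A.card + ((T ∪ A)ᶜ).card := by
    have : Fintype.card V = T.card + A.card + ((T ∪ A)ᶜ).card := by
      rw [card_compl, card_union_of_disjoint hTA]
      have : (T ∪ A).card ≤ Fintype.card V := card_le_univ _
      rw [card_union_of_disjoint hTA] at this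
      omega
    exact_mod_cast this
  let X := {v : V // v ∉ T ∪ A}
  let dg : V → ℤ := fun v => ∑ u, (if G.Adj u v then ind A u else 0)
  let R : Option X → Option X → ℤ := fun p q => match p, q with
    | none, none => 0
    | none, some v => dg v - A.card
    | some v, none => dg v - A.card
    | some u, some v => if G.Adj u v then 1 else 0
  have hRw : Wt R := by
    constructor
    · intro p q
      cases p <;> cases q <;> simp [R, G.adj_comm]
    · intro p
      cases p <;> simp [R]
  -- sums against a vector supported outside `T ∪ A`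
  have hBA : ∀ y : V → ℤ, B G (ind A) y = ∑ v, dg v * y v := by
    intro y
    unfold B
    rw [Finset.sum_comm]
    refine Finset.sum_congr rfl fun v _ => ?_
    rw [Finset.sum_mul]
    refine Finset.sum_congr rfl fun u _ => ?_
    split_ifs <;> simp
  have hRE : ∀ y : V → ℤ, (∀ v ∈ T ∪ A, y v = 0) →
      En R (fun o => o.elim 1 (fun v => y v)) = 2 * B G (ind A) y - 2 * A.card * ∑ v, y v
        + B G y y := by
    intro y hy
    have hy' : ∀ v, ¬ (v ∉ T ∪ A) → y v = 0 := fun v hv => hy v (not_not.1 hv)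
    have e1 : ∑ v, (dg v - A.card) * y v = ∑ v : X, (dg v - A.card) * y v :=
      sum_sub_of_zero (fun v => v ∉ T ∪ A) (fun v => (dg v - A.card) * y v)
        (fun v hv => by simp [hy' v hv])
    have e2 : B G y y = ∑ u : X, ∑ v : X, (if G.Adj u v then (1:ℤ) else 0) * (y u * y v) := by
      unfold B
      rw [sum_sub_of_zero (fun v => v ∉ T ∪ A) (fun u => ∑ v, if G.Adj u v then y u * y v else 0)
        (fun v hv => by simp [hy' v hv])]
      refine Finset.sum_congr rfl fun u _ => ?_
      rw [sum_sub_of_zero (fun v => v ∉ T ∪ A) (fun v => if G.Adj u v then y u * y v else 0)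
        (fun v hv => by simp [hy' v hv])]
      refine Finset.sum_congr rfl fun v _ => ?_
      split_ifs <;> simp
    have e3 : ∑ v, (dg v - A.card) * y v = B G (ind A) y - A.card * ∑ v, y v := by
      rw [hBA, Finset.mul_sum, ← Finset.sum_sub_distrib]
      exact Finset.sum_congr rfl fun v _ => by ring
    unfold En
    simp only [Fintype.sum_option, R, Option.elim, Finset.sum_add_distrib, zero_mul, zero_add,
      one_mul, mul_one]
    rw [← e2, ← e1, e3]
    ring
  have hRt : tot R = 2 * B G (ind A) (ind (T ∪ A)ᶜ) - 2 * A.card * ((T ∪ A)ᶜ).card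
      + B G (ind (T ∪ A)ᶜ) (ind (T ∪ A)ᶜ) := by
    have h1 := hRE (ind (T ∪ A)ᶜ) (fun v hv => if_neg (by rw [mem_compl, not_not]; exact hv))
    rw [sum_ind] at h1
    rw [← h1]
    unfold tot En
    refine Finset.sum_congr rfl fun p _ => Finset.sum_congr rfl fun q _ => ?_
    have hone : ∀ p : Option X, p.elim (1:ℤ) (fun v => (ind (T ∪ A)ᶜ : V → ℤ) v) = 1 := by
      intro p
      cases p with
      | none => rfl
      | some v => simp only [Option.elim, ind]; rw [if_pos (by rw [mem_compl]; exact v.2)]
    simp only [hone, mul_one]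
  have htot := twin_total G T A hT
  have h4 := B_ind_self_le G A
  have hkR : 2 * (k : ℤ) ≤ tot R := by
    rw [hRt]
    rw [htot, hn] at hk
    linarith
  obtain ⟨x, hx, hE⟩ := main_ff k (Option X) R hRw hkR
  -- normalise so that the hub is positive
  obtain ⟨x, hx, hE, hxn⟩ : ∃ x, Sg x ∧ En R x ≤ tot R - 4 * (ff k : ℤ) ∧ x none = 1 := by
    rcases hx none with h | h
    · exact ⟨x, hx, hE, h⟩
    · refine ⟨fun v => - x v, hx.neg, by rw [En_neg]; exact hE, by simp [h]⟩
  let y : V → ℤ := fun v => if h : v ∉ T ∪ A then x (some ⟨v, h⟩) else 0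
  have hy0 : ∀ v ∈ T ∪ A, y v = 0 := fun v hv => by simp only [y]; rw [dif_neg (not_not.2 hv)]
  have hy1 : ∀ v, v ∉ T ∪ A → (y v = 1 ∨ y v = -1) := by
    intro v hv
    simp only [y]
    rw [dif_pos hv]
    exact hx _
  have hxy : x = fun o => o.elim 1 (fun v => y v) := by
    funext o
    cases o with
    | none => exact hxn
    | some v => simp only [Option.elim, y]; rw [dif_pos v.2]
  rw [hxy, hRE y hy0, hRt] at hE
  obtain ⟨z, hz1, hz2, hz3⟩ := twin_signing G T A hT y hy1 hy0 hbig
  obtain ⟨S, h1, h2, h3⟩ := bisect_of_signing G z hz1 (by rw [hz2]; exact sg_cases V)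
  refine ⟨S, h1, h2, ?_⟩
  rw [h3, hz3, htot, hn]
  linarith

end Pool.Agent.H439R2.MC
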